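import Pool.Agent.H112R4.VL.A2
import Pool.Agent.W709.VC.JLim

/-!
The twist coefficients for one full twist, and the figure-eight knot as a double twist knot.
-/

set_option autoImplicit false

namespace Pool.Agent.V1150.RP

open Finset Filter Topology EvenVol Pool.Agent.H112R4.VL

lemma br_of {v x : ℂ} {e : ℤ} (h : v ^ e = x) : br v e = x - x⁻¹ := by
  unfold br
  rw [zpow_neg, h]

/-- the terms of the sum -/
noncomputable def tt2 (v : ℂ) (n k : ℕ) : ℂ :=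
  (-1) ^ (n - k) * v ^ (2 * k * (k + 1)) * br v ((2 * k + 1 : ℕ) : ℤ) /
    (brf v (n - k) * brf v (n + k + 1))

/-- the certificate -/
noncomputable def GG2 (v : ℂ) (n k : ℕ) : ℂ :=
  -((-1) ^ (n + 1 - k) * v ^ (2 * n + 2 * k ^ 2 + 2) * br v (k : ℤ) /
    (brf v (n + 1 - k) * brf v (n + k + 1)))

lemma brf_ne_le {v : ℂ} {m n : ℕ} (h : brf v n ≠ 0) (hmn : m ≤ n) : brf v m ≠ 0 :=
  brf_ne_of_le h hmn

lemma br_ne_of {v : ℂ} {n j : ℕ} (h : brf v n ≠ 0) (hj : j < n) : br v ((j : ℤ) + 1) ≠ 0 := by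
  unfold brf at h
  rw [Finset.prod_ne_zero_iff] at h
  exact h j (Finset.mem_range.2 hj)

lemma cert {v : ℂ} (hv : v ≠ 0) (k m : ℕ) (h : brf v (2 * (k + m) + 3) ≠ 0) :
    br v (((k + m : ℕ) : ℤ) + 1) * tt2 v (k + m + 1) k - v ^ (k + m + 2) * tt2 v (k + m) k =
      GG2 v (k + m) (k + 1) - GG2 v (k + m) k := by
  have h1 : brf v m ≠ 0 := brf_ne_le h (by omega)
  have h2 : brf v (2 * k + m + 1) ≠ 0 := brf_ne_le h (by omega)
  have h3 : br v ((m : ℤ) + 1) ≠ 0 := br_ne_of h (by omega)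
  have h4 : br v (((2 * k + m + 1 : ℕ) : ℤ) + 1) ≠ 0 := br_ne_of h (by omega)
  unfold tt2 GG2
  rw [show k + m + 1 - k = m + 1 by omega, show k + m - k = m by omega,
    show k + m + 1 - (k + 1) = m by omega, show k + m + 1 + k + 1 = (2 * k + m + 1) + 1 by ring,
    show k + m + k + 1 = 2 * k + m + 1 by ring, show k + m + (k + 1) + 1 = (2 * k + m + 1) + 1 by ring,
    brf_succ v m, brf_succ v (2 * k + m + 1)]
  have ha : v ^ k ≠ 0 := pow_ne_zero _ hv
  have hb : v ^ m ≠ 0 := pow_ne_zero _ hv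
  have e1 : br v (((k + m : ℕ) : ℤ) + 1) = v ^ k * v ^ m * v - (v ^ k * v ^ m * v)⁻¹ := by
    apply br_of
    rw [← pow_add, ← pow_succ]
    norm_cast
  have e2 : br v ((2 * k + 1 : ℕ) : ℤ) = (v ^ k) ^ 2 * v - ((v ^ k) ^ 2 * v)⁻¹ := by
    apply br_of
    rw [← pow_mul, ← pow_succ, mul_comm k 2]
    norm_cast
  have e3 : br v ((m : ℤ) + 1) = v ^ m * v - (v ^ m * v)⁻¹ := by
    apply br_of
    rw [← pow_succ]
    norm_cast
  have e4 : br v (((2 * k + m + 1 : ℕ) : ℤ) + 1) =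
      (v ^ k) ^ 2 * v ^ m * v ^ 2 - ((v ^ k) ^ 2 * v ^ m * v ^ 2)⁻¹ := by
    apply br_of
    rw [← pow_mul, ← pow_add, ← pow_add]
    have : ((2 * k + m + 1 : ℕ) : ℤ) + 1 = ((k * 2 + m + 2 : ℕ) : ℤ) := by push_cast; ring
    rw [this]
    norm_cast
  have e5 : br v (((k + 1 : ℕ) : ℤ)) = v ^ k * v - (v ^ k * v)⁻¹ := by
    apply br_of
    rw [← pow_succ]
    norm_cast
  have e6 : br v (k : ℤ) = v ^ k - (v ^ k)⁻¹ := by
    apply br_of
    norm_cast
  have p1 : v ^ (2 * k * (k + 1)) = v ^ (2 * k ^ 2) * (v ^ k) ^ 2 := by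
    rw [← pow_mul, ← pow_add]; congr 1; ring
  have p2 : v ^ (k + m + 2) = v ^ k * v ^ m * v ^ 2 := by
    rw [← pow_add, ← pow_add]
  have p3 : v ^ (2 * (k + m) + 2 * (k + 1) ^ 2 + 2) =
      v ^ (2 * k ^ 2) * (v ^ k) ^ 6 * (v ^ m) ^ 2 * v ^ 4 := by
    rw [← pow_mul, ← pow_mul, ← pow_add, ← pow_add, ← pow_add]; congr 1; ring
  have p4 : v ^ (2 * (k + m) + 2 * k ^ 2 + 2) =
      v ^ (2 * k ^ 2) * (v ^ k) ^ 2 * (v ^ m) ^ 2 * v ^ 2 := by
    rw [← pow_mul, ← pow_mul, ← pow_add, ← pow_add, ← pow_add]; congr 1; ring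
  rw [e1, e2, e5, e6, p1, p2, p3, p4, pow_succ (-1 : ℂ) m]
  rw [e3] at h3 ⊢
  rw [e4] at h4 ⊢
  generalize v ^ (2 * k ^ 2) = Q at *
  generalize v ^ k = a at *
  generalize v ^ m = b at *
  generalize brf v m = X at *
  generalize brf v (2 * k + m + 1) = Y at *
  generalize (-1 : ℂ) ^ m = S at *
  have g3 : b * v * (b * v) - 1 ≠ 0 := by
    intro hh
    apply h3
    field_simp
    linear_combination hh
  have g4 : (a ^ 2 * b * v ^ 2) * (a ^ 2 * b * v ^ 2) - 1 ≠ 0 := by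
    intro hh
    apply h4
    field_simp
    linear_combination hh
  have f3 : b * v - (b * v)⁻¹ = (b * v * (b * v) - 1) / (b * v) := by field_simp
  have f4 : a ^ 2 * b * v ^ 2 - (a ^ 2 * b * v ^ 2)⁻¹ =
      ((a ^ 2 * b * v ^ 2) * (a ^ 2 * b * v ^ 2) - 1) / (a ^ 2 * b * v ^ 2) := by field_simp
  rw [f3, f4]
  have g3' : b ^ 2 * v ^ 2 - 1 ≠ 0 := by
    intro hh; apply g3; linear_combination hh
  have g4' : a ^ 4 * b ^ 2 * v ^ 4 - 1 ≠ 0 := by
    intro hh; apply g4; linear_combination hh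
  have g4'' : (a ^ 2) ^ 2 * b ^ 2 * (v ^ 2) ^ 2 - 1 ≠ 0 := by
    intro hh; apply g4; linear_combination hh
  field_simp
  ring

lemma GG2_zero (v : ℂ) (n : ℕ) : GG2 v n 0 = 0 := by
  unfold GG2
  have : br v ((0 : ℕ) : ℤ) = 0 := by unfold br; simp
  rw [this]
  ring

lemma partial_sum {v : ℂ} (hv : v ≠ 0) (n : ℕ) (h : brf v (2 * n + 3) ≠ 0) :
    ∀ K : ℕ, K ≤ n + 1 → ∑ k ∈ range K,
      (br v ((n : ℤ) + 1) * tt2 v (n + 1) k - v ^ (n + 2) * tt2 v n k) = GG2 v n K := by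
  intro K
  induction K with
  | zero => intro _; rw [sum_range_zero, GG2_zero]
  | succ K ih =>
    intro hK
    obtain ⟨m, rfl⟩ : ∃ m, n = K + m := ⟨n - K, by omega⟩
    rw [sum_range_succ, ih (by omega), cert hv K m h]
    ring

/-- the recursion -/
lemma rec2 {v : ℂ} (hv : v ≠ 0) (n : ℕ) (h : brf v (2 * n + 3) ≠ 0) :
    br v ((n : ℤ) + 1) * ∑ k ∈ range (n + 2), tt2 v (n + 1) k =
      v ^ (n + 2) * ∑ k ∈ range (n + 1), tt2 v n k := by
  have h1 := partial_sum hv n h (n + 1) le_rfl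
  rw [sum_sub_distrib, ← mul_sum, ← mul_sum] at h1
  rw [sum_range_succ _ (n + 1), mul_add]
  have h2 : br v ((n : ℤ) + 1) * tt2 v (n + 1) (n + 1) = - GG2 v n (n + 1) := by
    unfold tt2 GG2
    rw [show n + 1 - (n + 1) = 0 by omega, show n + 1 + (n + 1) + 1 = (2 * n + 2) + 1 by ring,
      show n + (n + 1) + 1 = 2 * n + 2 by ring, brf_succ v (2 * n + 2)]
    have h3 : brf v (2 * n + 2) ≠ 0 := brf_ne_le h (by omega)
    have h4 : br v (((2 * n + 2 : ℕ) : ℤ) + 1) ≠ 0 := br_ne_of h (by omega)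
    have h5 : brf v 0 = 1 := by simp [brf]
    have e1 : br v ((2 * (n + 1) + 1 : ℕ) : ℤ) = br v (((2 * n + 2 : ℕ) : ℤ) + 1) := by
      congr 1
    have e2 : v ^ (2 * (n + 1) * (n + 1 + 1)) = v ^ (2 * n + 2 * (n + 1) ^ 2 + 2) := by
      congr 1
      ring
    have e3 : br v (((n + 1 : ℕ) : ℤ)) = br v ((n : ℤ) + 1) := by
      push_cast
      rfl
    rw [e1, e2, h5, e3]
    field_simp
  linear_combination h1 + h2

/-- **one full twist** -/
theorem gamH_two {v : ℂ} (hv : v ≠ 0) : ∀ n : ℕ, brf v (2 * n + 1) ≠ 0 →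
    gamH 2 v n = ∏ j ∈ range n, v ^ (j + 2) := by
  have key : ∀ n : ℕ, gamH 2 v n = brf v n * ∑ k ∈ range (n + 1), tt2 v n k := by
    intro n
    unfold gamH tt2
    rw [mul_sum]
    refine sum_congr rfl fun k _ => ?_
    have h1 : ((-1 : ℂ) ^ k * v ^ (k * (k + 1))) ^ (2 : ℤ) = v ^ (2 * k * (k + 1)) := by
      rw [zpow_ofNat, mul_pow, ← pow_mul, ← pow_mul, mul_comm k 2, pow_mul]
      norm_num
      congr 1
      ring
    rw [h1]
    ring
  intro n
  induction n with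
  | zero =>
    intro h
    rw [key]
    unfold tt2
    have h5 : brf v 0 = 1 := by simp [brf]
    have h6 : brf v 1 = br v 1 := by simp [brf]
    have h7 : br v 1 ≠ 0 := by
      have : brf v (2 * 0 + 1) = br v 1 := by simp [brf]
      rwa [this] at h
    simp [h5, h6]
    exact h7
  | succ n ih =>
    intro h
    have h' : brf v (2 * n + 3) ≠ 0 := by
      have e : 2 * (n + 1) + 1 = 2 * n + 3 := by ring
      rwa [e] at h
    have h2 := ih (brf_ne_le h' (by omega))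
    rw [key] at h2
    rw [key, brf_succ, prod_range_succ, ← h2]
    have h3 := rec2 hv n h'
    calc brf v n * br v ((n : ℤ) + 1) * ∑ k ∈ range (n + 1 + 1), tt2 v (n + 1) k =
        brf v n * (br v ((n : ℤ) + 1) * ∑ k ∈ range (n + 2), tt2 v (n + 1) k) := by ring
      _ = _ := by rw [h3]; ring

lemma brf_inv_ne {v : ℂ} {n : ℕ} (h : brf v n ≠ 0) : brf v⁻¹ n ≠ 0 := by
  rw [brf_inv]
  exact mul_ne_zero (pow_ne_zero _ (by norm_num)) h

/-- the product of the two coefficients -/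
theorem gam_prod2 {v : ℂ} (hv : v ≠ 0) {n : ℕ} (h : brf v (2 * n + 1) ≠ 0) :
    gamH 2 v n * gamH (-2) v n = (-1) ^ n := by
  have h1 := Pool.Agent.W709.VC.gamH_inv' 2 v n
  have h2 := gamH_two (inv_ne_zero hv) n (brf_inv_ne h)
  have h3 : gamH (-2) v n = (-1) ^ n * gamH 2 v⁻¹ n := by
    rw [h1, ← mul_assoc, ← mul_pow]
    norm_num
  rw [h3, h2, gamH_two hv n h]
  have h4 : (∏ j ∈ range n, v ^ (j + 2)) * ∏ j ∈ range n, v⁻¹ ^ (j + 2) = 1 := by
    rw [← prod_mul_distrib]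
    refine prod_eq_one fun j _ => ?_
    rw [← mul_pow, mul_inv_cancel₀ hv, one_pow]
  linear_combination ((-1 : ℂ) ^ n) * h4

/-- the double twist knot `C(2, 2)` is the figure-eight knot -/
theorem jd2 {N : ℕ} (hN : 2 ≤ N) : Tendsto (JD 2 (-2) N) (𝓝[≠] (v0 N)) (𝓝 (fig8 (v0 N) N)) := by
  have hv0 : v0 N ≠ 0 := TE.v0_ne hN
  have hcont : Tendsto (fun v : ℂ => fig8 v N) (𝓝[≠] (v0 N)) (𝓝 (fig8 (v0 N) N)) := by
    apply tendsto_nhdsWithin_of_tendsto_nhds
    unfold fig8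
    apply tendsto_finsetSum
    intro i _
    have hbr : ∀ n : ℤ, Tendsto (fun v : ℂ => br v n) (𝓝 (v0 N)) (𝓝 (br (v0 N) n)) :=
      fun n => (TE.br_diff n hv0).continuousAt
    exact tendsto_finsetProd _ (fun j _ => (hbr _).mul (hbr _))
  refine hcont.congr' ?_
  have hne : ∀ᶠ v in 𝓝[≠] (v0 N), v ≠ 0 :=
    (continuousAt_id.eventually_ne hv0).filter_mono nhdsWithin_le_nhds
  have hall : ∀ᶠ v in 𝓝[≠] (v0 N), ∀ j ∈ range (2 * N - 1), br v ((j : ℤ) + 1) ≠ 0 := by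
    rw [Filter.eventually_all_finset]
    intro j hj
    rw [Finset.mem_range] at hj
    by_cases hjN : j + 1 = N
    · have := TE.brN_ne hN
      rw [show ((j : ℤ) + 1) = (N : ℤ) by exact_mod_cast hjN]
      exact this
    · have h1 : br (v0 N) ((j : ℤ) + 1) ≠ 0 := by
        apply TE.br_ne hN
        intro hd
        have hd' : N ∣ j + 1 := by exact_mod_cast hd
        obtain ⟨c, hc⟩ := hd'
        have : c < 2 := by
          by_contra hh
          push Not at hh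
          have := Nat.mul_le_mul_left N hh
          omega
        interval_cases c <;> omega
      exact ((TE.br_diff _ hv0).continuousAt.eventually_ne h1).filter_mono nhdsWithin_le_nhds
  filter_upwards [hne, hall] with v hv hbv
  unfold JD fig8
  apply Finset.sum_congr rfl
  intro i hi
  rw [Finset.mem_range] at hi
  have hb : brf v (2 * i + 1) ≠ 0 := by
    unfold brf
    rw [Finset.prod_ne_zero_iff]
    intro j hj
    rw [Finset.mem_range] at hj
    exact hbv j (Finset.mem_range.2 (by omega))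
  rw [gam_prod2 hv hb]
  have hs : ((-1 : ℂ) ^ i) * (-1) ^ i = 1 := by rw [← mul_pow]; norm_num
  linear_combination (-(∏ j ∈ range i, (br v ((N : ℤ) + ((j : ℤ) + 1)) *
    br v ((N : ℤ) - ((j : ℤ) + 1))))) * hs

end Pool.Agent.V1150.RP
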