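import Mathlib

/-!
Sequences of positive real numbers: ratios and logarithms.
-/

set_option autoImplicit false

namespace Pool.Agent.V1150.RP.PS

open Filter Topology

/-- `J` takes positive real values -/
def Pos (J : ℕ → ℂ) : Prop := ∀ N, 1 ≤ N → ∃ r : ℝ, 0 < r ∧ J N = r

variable {J : ℕ → ℂ}

lemma Pos.ne (h : Pos J) {N : ℕ} (hN : 1 ≤ N) : J N ≠ 0 := by
  obtain ⟨r, hr, e⟩ := h N hN
  rw [e]
  exact_mod_cast hr.ne'

lemma Pos.eq (h : Pos J) {N : ℕ} (hN : 1 ≤ N) : J N = ((‖J N‖ : ℝ) : ℂ) := by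
  obtain ⟨r, hr, e⟩ := h N hN
  rw [e, Complex.norm_real, Real.norm_of_nonneg hr.le]

lemma Pos.norm_pos (h : Pos J) {N : ℕ} (hN : 1 ≤ N) : 0 < ‖J N‖ := norm_pos_iff.2 (h.ne hN)

lemma Pos.ratio (h : Pos J) {M N : ℕ} (hM : 1 ≤ M) (hN : 1 ≤ N) :
    J M / J N = ((‖J M‖ / ‖J N‖ : ℝ) : ℂ) := by
  rw [h.eq hM, h.eq hN]
  push_cast
  simp

/-- the form of the exponential in Q2 -/
lemma q2_exp (V C : ℝ) : Complex.exp ((C + Complex.I * V) / (2 * Real.pi * Complex.I)) =
    ((Real.exp (V / (2 * Real.pi)) : ℝ) : ℂ) *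
      Complex.exp (((-(C / (2 * Real.pi)) : ℝ) : ℂ) * Complex.I) := by
  have hpiC : (Real.pi : ℂ) ≠ 0 := by exact_mod_cast Real.pi_ne_zero
  have e1 : (C + Complex.I * V) / (2 * Real.pi * Complex.I) =
      ((V / (2 * Real.pi) : ℝ) : ℂ) + ((-(C / (2 * Real.pi)) : ℝ) : ℂ) * Complex.I := by
    push_cast
    have hI := Complex.I_ne_zero
    field_simp
    linear_combination (C : ℂ) * Complex.I_sq
  rw [e1, Complex.exp_add, Complex.ofReal_exp]

/-- the ratio limit -/
theorem Pos.q2_iff (h : Pos J) (V C : ℝ) :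
    Tendsto (fun N : ℕ => J (N + 1) / J N) atTop
      (𝓝 (Complex.exp ((C + Complex.I * V) / (2 * Real.pi * Complex.I)))) ↔
    (∃ j : ℤ, C = 4 * Real.pi ^ 2 * j) ∧ Tendsto (fun N : ℕ => ‖J (N + 1)‖ / ‖J N‖) atTop
      (𝓝 (Real.exp (V / (2 * Real.pi)))) := by
  have hpi := Real.pi_pos
  rw [q2_exp]
  constructor
  · intro h1
    have h2 : Tendsto (fun N : ℕ => ‖J (N + 1)‖ / ‖J N‖) atTop
        (𝓝 (Real.exp (V / (2 * Real.pi)))) := by
      have h3 := h1.norm
      rw [norm_mul, Complex.norm_exp_ofReal_mul_I, mul_one, Complex.norm_real,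
        Real.norm_of_nonneg (Real.exp_pos _).le] at h3
      simpa only [norm_div] using h3
    refine ⟨?_, h2⟩
    have h4 : Tendsto (fun N : ℕ => J (N + 1) / J N) atTop
        (𝓝 ((Real.exp (V / (2 * Real.pi)) : ℝ) : ℂ)) := by
      have h5 := (Complex.continuous_ofReal.tendsto _).comp h2
      refine h5.congr' ?_
      filter_upwards [eventually_ge_atTop 1] with N hN
      rw [h.ratio (by omega) hN]
      rfl
    have h5 := tendsto_nhds_unique h1 h4
    have hne : ((Real.exp (V / (2 * Real.pi)) : ℝ) : ℂ) ≠ 0 := by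
      exact_mod_cast (Real.exp_pos _).ne'
    have h6 : Complex.exp (((-(C / (2 * Real.pi)) : ℝ) : ℂ) * Complex.I) = 1 :=
      mul_left_cancel₀ hne (by rw [h5, mul_one])
    obtain ⟨j, hj⟩ := Complex.exp_eq_one_iff.1 h6
    refine ⟨-j, ?_⟩
    have h3 : ((-(C / (2 * Real.pi)) : ℝ) : ℂ) = ((j * (2 * Real.pi) : ℝ) : ℂ) := by
      have h4 : ((-(C / (2 * Real.pi)) : ℝ) : ℂ) * Complex.I =
          ((j * (2 * Real.pi) : ℝ) : ℂ) * Complex.I := by
        rw [hj]; push_cast; ring
      exact mul_right_cancel₀ Complex.I_ne_zero h4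
    have h7 : -(C / (2 * Real.pi)) = j * (2 * Real.pi) := by exact_mod_cast h3
    field_simp at h7
    push_cast
    linarith
  · rintro ⟨⟨j, hj⟩, h2⟩
    have h6 : Complex.exp (((-(C / (2 * Real.pi)) : ℝ) : ℂ) * Complex.I) = 1 := by
      rw [Complex.exp_eq_one_iff]
      refine ⟨-j, ?_⟩
      have hpiC : (Real.pi : ℂ) ≠ 0 := by exact_mod_cast Real.pi_ne_zero
      rw [hj]
      push_cast
      field_simp
      ring
    rw [h6, mul_one]
    have h5 := (Complex.continuous_ofReal.tendsto _).comp h2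
    refine h5.congr' ?_
    filter_upwards [eventually_ge_atTop 1] with N hN
    rw [h.ratio (by omega) hN]
    rfl

/-- principal logarithm of a quotient -/
lemma Pos.log_ratio (h : Pos J) {M N : ℕ} (hM : 1 ≤ M) (hN : 1 ≤ N) :
    (Real.pi : ℂ) * Complex.log (J M / J N) =
      ((Real.pi * Real.log (‖J M‖ / ‖J N‖) : ℝ) : ℂ) := by
  rw [h.ratio hM hN, ← Complex.ofReal_log (by positivity)]
  push_cast
  rfl

/-- convergence in `ℂ / i π² ℤ` -/
def ConvMod (x : ℕ → ℂ) (z : ℂ) : Prop :=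
  ∃ m : ℕ → ℤ, Tendsto (fun k => x k + Complex.I * Real.pi ^ 2 * m k) atTop (𝓝 z)

theorem convMod_iff {x : ℕ → ℂ} {y : ℕ → ℝ} (h : ∀ᶠ k in atTop, x k = y k) (V C : ℝ) :
    ConvMod x (V + Complex.I * C) ↔ (∃ j : ℤ, C = Real.pi ^ 2 * j) ∧ Tendsto y atTop (𝓝 V) := by
  have hpi := Real.pi_pos
  constructor
  · rintro ⟨m, hm⟩
    have h1 := (Complex.continuous_re.tendsto _).comp hm
    have h2 := (Complex.continuous_im.tendsto _).comp hm
    have h3 : Tendsto y atTop (𝓝 V) := by
      have e : (V + Complex.I * C : ℂ).re = V := by simp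
      rw [e] at h1
      refine h1.congr' ?_
      filter_upwards [h] with k hk
      simp only [Function.comp_apply, hk]
      have e2 : Complex.I * (Real.pi : ℂ) ^ 2 * (m k : ℂ) =
          ((Real.pi ^ 2 * m k : ℝ) : ℂ) * Complex.I := by push_cast; ring
      rw [e2, Complex.add_re, Complex.ofReal_re, Complex.re_ofReal_mul, Complex.I_re, mul_zero,
        add_zero]
    refine ⟨?_, h3⟩
    have h4 : Tendsto (fun k => Real.pi ^ 2 * (m k : ℝ)) atTop (𝓝 C) := by
      have e : (V + Complex.I * C : ℂ).im = C := by simp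
      rw [e] at h2
      refine h2.congr' ?_
      filter_upwards [h] with k hk
      simp only [Function.comp_apply, hk]
      have e2 : Complex.I * (Real.pi : ℂ) ^ 2 * (m k : ℂ) =
          ((Real.pi ^ 2 * m k : ℝ) : ℂ) * Complex.I := by push_cast; ring
      rw [e2, Complex.add_im, Complex.ofReal_im, Complex.im_ofReal_mul, Complex.I_im, mul_one,
        zero_add]
    have h5 : Tendsto (fun k => ((m k : ℤ) : ℝ)) atTop (𝓝 (C / Real.pi ^ 2)) := by
      have := h4.div_const (Real.pi ^ 2)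
      refine this.congr fun k => ?_
      field_simp
    have h6 : C / Real.pi ^ 2 ∈ Set.range ((↑) : ℤ → ℝ) :=
      Int.isClosedEmbedding_coe_real.isClosed_range.mem_of_tendsto h5
        (Eventually.of_forall fun k => ⟨m k, rfl⟩)
    obtain ⟨j, hj⟩ := h6
    refine ⟨j, ?_⟩
    have hj' : (j : ℝ) = C / Real.pi ^ 2 := hj
    rw [hj']
    field_simp
  · rintro ⟨⟨j, hj⟩, h1⟩
    refine ⟨fun _ => j, ?_⟩
    have h2 := ((Complex.continuous_ofReal.tendsto _).comp h1).add
      (tendsto_const_nhds (x := Complex.I * (Real.pi : ℂ) ^ 2 * (j : ℂ)))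
    have e : (V : ℂ) + Complex.I * C = (V : ℂ) + Complex.I * (Real.pi : ℂ) ^ 2 * (j : ℂ) := by
      rw [hj]; push_cast; ring
    rw [e]
    refine h2.congr' ?_
    filter_upwards [h] with k hk
    simp only [Function.comp_apply, hk]

/-- odd colours -/
theorem Pos.odd_iff (h : Pos J) (V C : ℝ) :
    ConvMod (fun k : ℕ => Real.pi * Complex.log (J (2 * k + 3) / J (2 * k + 1)))
      (V + Complex.I * C) ↔ (∃ j : ℤ, C = Real.pi ^ 2 * j) ∧
      Tendsto (fun k : ℕ => Real.pi * Real.log (‖J (2 * k + 3)‖ / ‖J (2 * k + 1)‖)) atTop (𝓝 V) :=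
  convMod_iff (Eventually.of_forall fun k => h.log_ratio (by omega) (by omega)) V C

/-- the logarithms -/
theorem Pos.log_iff (h : Pos J) {φ : ℕ → ℕ} (hφ : Tendsto φ atTop atTop) (V C : ℝ) :
    Tendsto (fun k : ℕ => 2 * Real.pi / (φ k : ℂ) * Complex.log (J (φ k))) atTop
      (𝓝 (V + Complex.I * C)) ↔ C = 0 ∧
      Tendsto (fun k : ℕ => 2 * Real.pi / (φ k : ℝ) * Real.log ‖J (φ k)‖) atTop (𝓝 V) := by
  have e : ∀ᶠ k in atTop, 2 * Real.pi / (φ k : ℂ) * Complex.log (J (φ k)) =
      ((2 * Real.pi / (φ k : ℝ) * Real.log ‖J (φ k)‖ : ℝ) : ℂ) := by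
    filter_upwards [hφ.eventually_ge_atTop 1] with k hk
    conv_lhs => rw [h.eq hk]
    rw [← Complex.ofReal_log (norm_nonneg _)]
    push_cast
    rfl
  constructor
  · intro h1
    have h2 := (Complex.continuous_re.tendsto _).comp h1
    have h3 := (Complex.continuous_im.tendsto _).comp h1
    have e1 : (V + Complex.I * C : ℂ).re = V := by simp
    have e2 : (V + Complex.I * C : ℂ).im = C := by simp
    rw [e1] at h2
    rw [e2] at h3
    constructor
    · refine tendsto_nhds_unique h3 ?_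
      refine (tendsto_const_nhds (x := (0 : ℝ))).congr' ?_
      filter_upwards [e] with k hk
      simp only [Function.comp_apply, hk, Complex.ofReal_im]
    · refine h2.congr' ?_
      filter_upwards [e] with k hk
      simp only [Function.comp_apply, hk, Complex.ofReal_re]
  · rintro ⟨rfl, h1⟩
    have h2 := (Complex.continuous_ofReal.tendsto _).comp h1
    have e1 : (V : ℂ) + Complex.I * ((0 : ℝ) : ℂ) = (V : ℂ) := by simp
    rw [e1]
    refine h2.congr' ?_
    filter_upwards [e] with k hk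
    simp only [Function.comp_apply, hk]

end Pool.Agent.V1150.RP.PS

namespace Pool.Agent.V1150.RP.PS

open Filter Topology

/-- the full identity with the principal logarithm, in the convention `Φ = CS + i vol` -/
theorem Pos.full_iff {J : ℕ → ℂ} (h : Pos J) (V C : ℝ) :
    Tendsto (fun N : ℕ => 2 * Real.pi * Complex.I / (N : ℂ) * Complex.log (J N)) atTop
      (𝓝 (C + Complex.I * V)) ↔ C = 0 ∧
      Tendsto (fun N : ℕ => 2 * Real.pi / (N : ℝ) * Real.log ‖J N‖) atTop (𝓝 V) := by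
  have h1 := h.log_iff (φ := fun N => N) tendsto_id V (-C)
  rw [neg_eq_zero] at h1
  rw [← h1]
  have hI : Complex.I * Complex.I = -1 := Complex.I_mul_I
  constructor
  · intro h2
    have h3 := h2.const_mul (-Complex.I)
    have e : -Complex.I * ((C : ℂ) + Complex.I * V) = (V : ℂ) + Complex.I * ((-C : ℝ) : ℂ) := by
      push_cast
      linear_combination (-(V : ℂ)) * hI
    rw [e] at h3
    refine h3.congr fun N => ?_
    linear_combination (-(2 * Real.pi / (N : ℂ) * Complex.log (J N))) * hI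
  · intro h2
    have h3 := h2.const_mul Complex.I
    have e : Complex.I * ((V : ℂ) + Complex.I * ((-C : ℝ) : ℂ)) = (C : ℂ) + Complex.I * V := by
      push_cast
      linear_combination (-(C : ℂ)) * hI
    rw [e] at h3
    refine h3.congr fun N => ?_
    ring

end Pool.Agent.V1150.RP.PS
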