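import Mathlib

/-!
Which limits are possible for sequences with given exponential bounds.
-/

set_option autoImplicit false

namespace Pool.Agent.V1150.RP.Lims

open Filter Topology Finset

/-- upper exponential bound with rate `U / (2 π)` -/
def Up (J : ℕ → ℂ) (U : ℝ) : Prop := ∀ ε : ℝ, 0 < ε → ∀ᶠ N : ℕ in atTop,
  ‖J N‖ ≤ Real.exp ((U / (2 * Real.pi) + ε) * N)

/-- lower exponential bound with rate `L / (2 π)` -/
def Lo (J : ℕ → ℂ) (L : ℝ) : Prop := ∀ ε : ℝ, 0 < ε → ∀ᶠ N : ℕ in atTop,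
  Real.exp ((L / (2 * Real.pi) - ε) * N) ≤ ‖J N‖

variable {J : ℕ → ℂ} {U L V : ℝ} {φ : ℕ → ℕ}

/-- the growth rate is at most `U` -/
lemma Up.le (h : Up J U) (hφ : Tendsto φ atTop atTop) (hne : ∀ᶠ k in atTop, J (φ k) ≠ 0)
    (ht : Tendsto (fun k : ℕ => 2 * Real.pi * (Real.log ‖J (φ k)‖ / (φ k : ℝ))) atTop (𝓝 V)) :
    V ≤ U := by
  have hpi := Real.pi_pos
  refine le_of_forall_pos_le_add fun ε hε => ?_
  refine le_of_tendsto ht ?_
  filter_upwards [hφ.eventually (h (ε / (2 * Real.pi)) (by positivity)), hne,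
    hφ.eventually_gt_atTop 0] with k h1 h2 h3
  have h3' : (0 : ℝ) < φ k := by exact_mod_cast h3
  have h4 := Real.log_le_log (norm_pos_iff.2 h2) h1
  rw [Real.log_exp] at h4
  have h5 : Real.log ‖J (φ k)‖ / (φ k : ℝ) ≤ U / (2 * Real.pi) + ε / (2 * Real.pi) := by
    rw [div_le_iff₀ h3']
    exact h4
  calc 2 * Real.pi * (Real.log ‖J (φ k)‖ / (φ k : ℝ)) ≤
      2 * Real.pi * (U / (2 * Real.pi) + ε / (2 * Real.pi)) :=
        mul_le_mul_of_nonneg_left h5 (by positivity)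
    _ = U + ε := by field_simp

/-- the growth rate is at least `L` -/
lemma Lo.le (h : Lo J L) (hφ : Tendsto φ atTop atTop)
    (ht : Tendsto (fun k : ℕ => 2 * Real.pi * (Real.log ‖J (φ k)‖ / (φ k : ℝ))) atTop (𝓝 V)) :
    L ≤ V := by
  have hpi := Real.pi_pos
  refine le_of_forall_pos_le_add fun ε hε => ?_
  rw [← sub_le_iff_le_add]
  refine ge_of_tendsto ht ?_
  filter_upwards [hφ.eventually (h (ε / (2 * Real.pi)) (by positivity)),
    hφ.eventually_gt_atTop 0] with k h1 h3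
  have h3' : (0 : ℝ) < φ k := by exact_mod_cast h3
  have h4 := Real.log_le_log (Real.exp_pos _) h1
  rw [Real.log_exp] at h4
  have h5 : L / (2 * Real.pi) - ε / (2 * Real.pi) ≤ Real.log ‖J (φ k)‖ / (φ k : ℝ) := by
    rw [le_div_iff₀ h3']
    exact h4
  calc L - ε = 2 * Real.pi * (L / (2 * Real.pi) - ε / (2 * Real.pi)) := by field_simp
    _ ≤ _ := mul_le_mul_of_nonneg_left h5 (by positivity)

/-- from differences to the mean -/
lemma cesaro {f : ℕ → ℝ} {c : ℝ} (h : Tendsto (fun k => f (k + 1) - f k) atTop (𝓝 c)) :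
    Tendsto (fun k : ℕ => f k / k) atTop (𝓝 c) := by
  have h1 := h.cesaro
  have h2 : Tendsto (fun k : ℕ => f 0 / (k : ℝ)) atTop (𝓝 0) :=
    tendsto_const_div_atTop_nhds_zero_nat _
  have h3 := h1.add h2
  rw [add_zero] at h3
  refine h3.congr fun k => ?_
  rw [Finset.sum_range_sub, inv_mul_eq_div, ← add_div, sub_add_cancel]

/-- the ratios, in the convention `Φ = CS + i vol` -/
lemma ratio {C : ℝ} (h : Tendsto (fun N : ℕ => J (N + 1) / J N) atTop
      (𝓝 (Complex.exp ((C + Complex.I * V) / (2 * Real.pi * Complex.I))))) :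
    (∀ᶠ N in atTop, J N ≠ 0) ∧
    Tendsto (fun k : ℕ => 2 * Real.pi * (Real.log ‖J k‖ / (k : ℝ))) atTop (𝓝 V) := by
  have hpi := Real.pi_pos
  have hpiC : (Real.pi : ℂ) ≠ 0 := by exact_mod_cast Real.pi_ne_zero
  have h0 : ∀ᶠ N in atTop, J (N + 1) / J N ≠ 0 :=
    h.eventually_ne (Complex.exp_ne_zero _)
  have hne : ∀ᶠ N in atTop, J N ≠ 0 := by
    filter_upwards [h0] with N hN h1
    exact hN (by rw [h1, div_zero])
  refine ⟨hne, ?_⟩
  have e1 : (C + Complex.I * V) / (2 * Real.pi * Complex.I) =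
      ((V / (2 * Real.pi) : ℝ) : ℂ) + ((-(C / (2 * Real.pi)) : ℝ) : ℂ) * Complex.I := by
    push_cast
    have hI := Complex.I_ne_zero
    field_simp
    linear_combination (C : ℂ) * Complex.I_sq
  have h1 := h.norm
  rw [e1, Complex.exp_add, norm_mul, Complex.norm_exp_ofReal_mul_I, mul_one,
    ← Complex.ofReal_exp, Complex.norm_real, Real.norm_of_nonneg (Real.exp_pos _).le] at h1
  have h2 := ((Real.continuousAt_log (Real.exp_pos (V / (2 * Real.pi))).ne').tendsto).comp h1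
  rw [Real.log_exp] at h2
  have h3 : Tendsto (fun k => Real.log ‖J (k + 1)‖ - Real.log ‖J k‖) atTop
      (𝓝 (V / (2 * Real.pi))) := by
    refine h2.congr' ?_
    filter_upwards [hne, (tendsto_add_atTop_nat 1).eventually hne] with k g1 g2
    simp only [Function.comp_apply]
    rw [norm_div, Real.log_div (norm_ne_zero_iff.2 g2) (norm_ne_zero_iff.2 g1)]
  have h4 := (cesaro (f := fun k => Real.log ‖J k‖) h3).const_mul (2 * Real.pi)
  have e : 2 * Real.pi * (V / (2 * Real.pi)) = V := by field_simp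
  rwa [e] at h4

/-- convergence in `ℂ / i π² ℤ` -/
def ConvMod (x : ℕ → ℂ) (z : ℂ) : Prop :=
  ∃ m : ℕ → ℤ, Tendsto (fun k => x k + Complex.I * Real.pi ^ 2 * m k) atTop (𝓝 z)

/-- odd colours -/
lemma odd {C : ℝ} (hne : ∀ᶠ k : ℕ in atTop, J (2 * k + 1) ≠ 0)
    (h : ConvMod (fun k : ℕ => Real.pi * Complex.log (J (2 * k + 3) / J (2 * k + 1)))
      (V + Complex.I * C)) :
    Tendsto (fun k : ℕ => 2 * Real.pi * (Real.log ‖J (2 * k + 1)‖ / ((2 * k + 1 : ℕ) : ℝ))) atTop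
      (𝓝 V) := by
  have hpi := Real.pi_pos
  obtain ⟨m, hm⟩ := h
  have h1 := (Complex.continuous_re.tendsto _).comp hm
  have e : (V + Complex.I * C : ℂ).re = V := by simp
  rw [e] at h1
  have h2 : Tendsto (fun k => Real.log ‖J (2 * (k + 1) + 1)‖ - Real.log ‖J (2 * k + 1)‖) atTop
      (𝓝 (V / Real.pi)) := by
    have h3 := h1.div_const Real.pi
    refine h3.congr' ?_
    filter_upwards [hne, (tendsto_add_atTop_nat 1).eventually hne] with k g1 g2
    have g3 : 2 * (k + 1) + 1 = 2 * k + 3 := by ring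
    rw [g3] at g2 ⊢
    simp only [Function.comp_apply]
    have e2 : Complex.I * (Real.pi : ℂ) ^ 2 * (m k : ℂ) =
        ((Real.pi ^ 2 * m k : ℝ) : ℂ) * Complex.I := by push_cast; ring
    rw [e2, Complex.add_re, Complex.re_ofReal_mul, Complex.re_ofReal_mul, Complex.I_re, mul_zero,
      add_zero, Complex.log_re, norm_div,
      Real.log_div (norm_ne_zero_iff.2 g2) (norm_ne_zero_iff.2 g1)]
    field_simp
  have h4 := cesaro (f := fun k => Real.log ‖J (2 * k + 1)‖) h2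
  have h5 : Tendsto (fun k : ℕ => (k : ℝ) / ((2 * k + 1 : ℕ) : ℝ)) atTop (𝓝 (1 / 2)) := by
    have h6 : Tendsto (fun k : ℕ => (1 : ℝ) / (k : ℝ)) atTop (𝓝 0) :=
      tendsto_const_div_atTop_nhds_zero_nat _
    have h7 := (h6.const_add 2).inv₀ (by norm_num)
    rw [add_zero] at h7
    have e3 : (2 : ℝ)⁻¹ = 1 / 2 := by norm_num
    rw [e3] at h7
    refine h7.congr' ?_
    filter_upwards [eventually_gt_atTop 0] with k hk
    have hk' : (0 : ℝ) < k := by exact_mod_cast hk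
    push_cast
    field_simp
  have h8 := (h4.mul h5).const_mul (2 * Real.pi)
  have e4 : 2 * Real.pi * (V / Real.pi * (1 / 2)) = V := by field_simp
  rw [e4] at h8
  refine h8.congr' ?_
  filter_upwards [eventually_gt_atTop 0] with k hk
  have hk' : (0 : ℝ) < k := by exact_mod_cast hk
  have hk2 : (0 : ℝ) < ((2 * k + 1 : ℕ) : ℝ) := by positivity
  field_simp

/-- some logarithms -/
lemma logs {C : ℝ} (l : ℕ → ℂ) (hl : ∀ᶠ k in atTop, Complex.exp (l k) = J (φ k))
    (h : Tendsto (fun k : ℕ => 2 * Real.pi / (φ k : ℂ) * l k) atTop (𝓝 (V + Complex.I * C))) :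
    (∀ᶠ k in atTop, J (φ k) ≠ 0) ∧
    Tendsto (fun k : ℕ => 2 * Real.pi * (Real.log ‖J (φ k)‖ / (φ k : ℝ))) atTop (𝓝 V) := by
  refine ⟨hl.mono fun k hk => hk ▸ Complex.exp_ne_zero _, ?_⟩
  have h1 := (Complex.continuous_re.tendsto _).comp h
  have e : (V + Complex.I * C : ℂ).re = V := by simp
  rw [e] at h1
  refine h1.congr' ?_
  filter_upwards [hl] with k hk
  simp only [Function.comp_apply]
  rw [← hk, Complex.norm_exp, Real.log_exp]
  have e2 : 2 * (Real.pi : ℂ) / (φ k : ℂ) = ((2 * Real.pi / (φ k : ℝ) : ℝ) : ℂ) := by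
    push_cast; ring
  rw [e2, Complex.re_ofReal_mul]
  ring

end Pool.Agent.V1150.RP.Lims
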