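import Pool.Agent.V1150.RP.C
import Pool.Agent.W719.BX.GeoN
import Pool.Agent.W719.BX.Full
import Pool.Agent.W715.VC.Base
import Pool.Agent.H112R4.VL.D
import Pool.Agent.H112R4.VL.B
import Pool.Agent.H8R3.VL.TaskC
import Pool.Agent.H180R3.EV.Analysis

/-!
Reflection positivity for two-bridge (1,1)-tangles: powers of palindromic words, and the growth of
the blocks.
-/

set_option autoImplicit false

namespace Pool.Agent.V1150.RP

open Matrix Finset Filter Topology Pool.Agent.H550R3.Jones Pool.Agent.W715.VC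
open scoped Kronecker

variable {N : ℕ}

lemma kv_hf (hN : 0 < N) (w : List (ℕ × Bool)) : kv N hN w = Hf (psi N) (rep3 N w *ᵥ psi N) :=
  tang_eq hN w

/-- logarithmic convexity along the powers of a palindromic word -/
theorem log_convex (hN : 0 < N) {u : List (ℕ × Bool)} (hu : ∀ l ∈ u, l.1 < 2) (n : ℕ) :
    ‖kv N hN (wpow (dual u ++ u) (n + 1))‖ ^ 2 ≤
      ‖kv N hN (wpow (dual u ++ u) n)‖ * ‖kv N hN (wpow (dual u ++ u) (n + 2))‖ := by
  set T := rep3 N (dual u ++ u) with hT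
  have hTe : T = hadj (rep3 N u) * rep3 N u := by rw [hT, rep3_append, hadj_rep3 hN hu]
  have hGT : Good T := good_rep3 _
  have hTK : ∀ n : ℕ, InK (N - 1) (T ^ n *ᵥ psi N) := by
    intro n
    induction n with
    | zero => rw [pow_zero, Matrix.one_mulVec]; exact psi_InK hN
    | succ n ih => rw [pow_succ', ← Matrix.mulVec_mulVec]; exact hGT.InK ih
  have hTadj : hadj T = T := by
    rw [hTe, hadj_mul]
    congr 1
    ext p q
    simp only [hadj, Complex.conj_conj, rv_rv]
  have hself : ∀ n : ℕ, ∀ y z : I3 N → ℂ, Hf (T ^ n *ᵥ y) z = Hf y (T ^ n *ᵥ z) := by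
    intro n
    induction n with
    | zero => intro y z; rw [pow_zero, Matrix.one_mulVec, Matrix.one_mulVec]
    | succ n ih =>
      intro y z
      conv_lhs => rw [pow_succ, ← Matrix.mulVec_mulVec]
      rw [ih, Hf_adj, hTadj, Matrix.mulVec_mulVec, ← pow_succ']
  have e0 : ∀ k, kv N hN (wpow (dual u ++ u) k) = Hf (psi N) (T ^ k *ᵥ psi N) := by
    intro k
    rw [kv_hf, rep3_wpow]
  have e1 : ∀ i j, Hf (T ^ i *ᵥ psi N) (T ^ j *ᵥ psi N) = kv N hN (wpow (dual u ++ u) (i + j)) := by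
    intro i j
    rw [hself, Matrix.mulVec_mulVec, ← pow_add, e0]
  have e2 : ∀ i j, Hf (rep3 N u *ᵥ (T ^ i *ᵥ psi N)) (rep3 N u *ᵥ (T ^ j *ᵥ psi N)) =
      kv N hN (wpow (dual u ++ u) (i + j + 1)) := by
    intro i j
    have e3 : ∀ z : I3 N → ℂ, hadj (rep3 N u) *ᵥ (rep3 N u *ᵥ z) = T *ᵥ z := by
      intro z
      rw [Matrix.mulVec_mulVec, ← hTe]
    have e4 : T *ᵥ (T ^ j *ᵥ psi N) = T ^ (j + 1) *ᵥ psi N := by
      rw [Matrix.mulVec_mulVec, ← pow_succ']
    rw [Hf_adj, e3, e4, e1, ← add_assoc]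
  rcases Nat.even_or_odd n with ⟨k, hk⟩ | ⟨k, hk⟩
  · have h := cs hN (hTK k) (hTK (k + 1))
    rw [e1, e1, e1] at h
    rw [show n + 1 = k + (k + 1) by omega, show n + 2 = k + 1 + (k + 1) by omega,
      show n = k + k by omega]
    exact h
  · have h := cs hN ((good_rep3 u).InK (hTK k)) ((good_rep3 u).InK (hTK (k + 1)))
    rw [e2, e2, e2] at h
    rw [show n + 1 = k + (k + 1) + 1 by omega, show n + 2 = k + 1 + (k + 1) + 1 by omega,
      show n = k + k + 1 by omega]
    exact h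

lemma wpow_zero' (w : List (ℕ × Bool)) : wpow w 0 = [] := rfl
lemma wpow_one' (w : List (ℕ × Bool)) : wpow w 1 = w := by simp [wpow]

/-- powers -/
theorem pow_le (hN : 0 < N) {u : List (ℕ × Bool)} (hu : ∀ l ∈ u, l.1 < 2) (n : ℕ) :
    ‖kv N hN (dual u ++ u)‖ ^ n ≤ ‖kv N hN (wpow (dual u ++ u) n)‖ := by
  set a : ℕ → ℝ := fun n => ‖kv N hN (wpow (dual u ++ u) n)‖ with ha
  have h0 : a 0 = 1 := by
    simp only [ha]
    rw [wpow_zero', kv_nil, norm_one]
  have h1 : a 1 = ‖kv N hN (dual u ++ u)‖ := by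
    simp only [ha]
    rw [wpow_one']
  have hpos1 : 0 < a 1 := by
    obtain ⟨r, hr, h⟩ := kv_self_pos hN hu
    rw [h1, h, Complex.norm_real, Real.norm_of_nonneg hr.le]
    exact hr
  have hlc : ∀ n, a (n + 1) ^ 2 ≤ a n * a (n + 2) := fun n => log_convex hN hu n
  have key : ∀ n, 0 < a n ∧ a 1 * a n ≤ a (n + 1) := by
    intro n
    induction n with
    | zero => rw [h0]; exact ⟨one_pos, by rw [mul_one]⟩
    | succ n ih =>
      have hp : 0 < a (n + 1) := lt_of_lt_of_le (mul_pos hpos1 ih.1) ih.2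
      refine ⟨hp, ?_⟩
      have h2 := hlc n
      by_contra hcon
      push Not at hcon
      have h3 : a n * a (n + 2) < a n * (a 1 * a (n + 1)) := mul_lt_mul_of_pos_left hcon ih.1
      nlinarith [mul_le_mul_of_nonneg_right ih.2 hp.le]
  have fin : ∀ n, a 1 ^ n ≤ a n := by
    intro n
    induction n with
    | zero => rw [pow_zero, h0]
    | succ n ih =>
      rw [pow_succ']
      exact (mul_le_mul_of_nonneg_left ih hpos1.le).trans (key n).2
  rw [← h1]
  exact fin n

/-! ### the growth of the blocks -/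

lemma lob_pos : 0 < GapVol.lob (Real.pi / 6) := Pool.Agent.W709.VC.lob6_pos

/-- the growth of the trace for one crossing -/
theorem growth_one : Tendsto (fun N : ℕ => 2 * Real.pi *
    (Real.log ‖(rep3 N ([(0, true)] ++ dual [(0, true)])).trace‖ / N)) atTop
      (𝓝 (8 * GapVol.lob (Real.pi / 6))) := by
  refine (Pool.Agent.H112R4.VL.taskD Pool.Agent.H112R4.VL.taskB
    Pool.Agent.H8R3.VL.taskC).congr' ?_
  filter_upwards [eventually_gt_atTop 0] with N hN
  have h4 : [((0, true) : ℕ × Bool)] ++ dual [(0, true)] = [(0, true), (1, false)] := rfl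
  rw [h4, trace_base hN, Complex.norm_real, Real.norm_eq_abs, abs_of_nonneg]
  · ring
  · exact Finset.sum_nonneg (fun n _ => by positivity)

end Pool.Agent.V1150.RP
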