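import Pool.Agent.W715.VC.Axis
import Pool.Agent.W715.VC.EigMain

/-!
Reflection positivity for two-bridge (1,1)-tangles: the cup vector.
-/

set_option autoImplicit false

namespace Pool.Agent.V1150.RP

open Matrix Finset Pool.Agent.H550R3.Jones Pool.Agent.W715.VC
open scoped Kronecker

variable {N : ℕ}

/-- coefficients of the invariant vector -/
noncomputable def kap (N : ℕ) (v : ℂ) (k : ℕ) : ℂ :=
  (-1) ^ k * v ^ ((k : ℤ) * ((N : ℤ) - 2 - k)) * (brf v k * brf v (N - 1 - k) / brf v (N - 1))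

/-- the invariant vector of `V_N ⊗ V_N` -/
noncomputable def cup (N : ℕ) (v : ℂ) (p : Fin N × Fin N) : ℂ :=
  if (p.1 : ℕ) + p.2 = N - 1 then kap N v p.1 else 0

/-- the invariant linear form on `V_N ⊗ V_N` -/
noncomputable def cap (N : ℕ) (v : ℂ) (p : Fin N × Fin N) : ℂ :=
  if (p.1 : ℕ) + p.2 = N - 1 then (kap N v p.2)⁻¹ else 0

/-- the operator of the (1,1)-tangle -/
noncomputable def tang (N : ℕ) (w : List (ℕ × Bool)) (v : ℂ) : Matrix (Fin N) (Fin N) ℂ :=
  fun i j => ∑ p : Fin N × Fin N, ∑ q : Fin N × Fin N,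
    cap N v p * rep (crossP N v) (crossN N v) 3 w ![p.1, p.2, i] ![j, q.1, q.2] * cup N v q

lemma br_rt_ne (hN : 0 < N) {k : ℕ} (h0 : 0 < k) (hk : k < N) : br (rt N) k ≠ 0 :=
  (adm N).2 k h0 hk

lemma brf_ne (hN : 0 < N) {k : ℕ} (hk : k < N) : brf (rt N) k ≠ 0 := by
  unfold brf
  refine prod_ne_zero_iff.2 fun j hj => ?_
  rw [mem_range] at hj
  have := br_rt_ne hN (k := j + 1) (by omega) (by omega)
  exact_mod_cast this

/-- `{N-1}! = {k}! {N-1-k}!` at the root of unity -/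
lemma brf_split (hN : 0 < N) {k : ℕ} (hk : k < N) :
    brf (rt N) k * brf (rt N) (N - 1 - k) = brf (rt N) (N - 1) := by
  induction k with
  | zero => simp [brf]
  | succ k ih =>
    rw [← ih (by omega)]
    have e1 : brf (rt N) (k + 1) = brf (rt N) k * br (rt N) ((k : ℤ) + 1) := by
      unfold brf; rw [prod_range_succ]
    have e2 : brf (rt N) (N - 1 - k) = brf (rt N) (N - 1 - (k + 1)) * br (rt N) ((k : ℤ) + 1) := by
      have h : N - 1 - k = (N - 1 - (k + 1)) + 1 := by omega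
      rw [h]
      have h2 : (N - 1 - (k + 1) + 1) - 0 = N - 1 - (k + 1) + 1 := rfl
      unfold brf
      rw [prod_range_succ]
      congr 1
      rw [← br_refl hN]
      congr 1
      omega
    rw [e1, e2]
    ring

lemma kap_rt (hN : 0 < N) {k : ℕ} (hk : k < N) :
    kap N (rt N) k = (-1) ^ k * rt N ^ ((k : ℤ) * ((N : ℤ) - 2 - k)) := by
  unfold kap
  rw [brf_split hN hk, div_self (brf_ne hN (by omega)), mul_one]

lemma kap_norm (hN : 0 < N) {k : ℕ} (hk : k < N) : ‖kap N (rt N) k‖ = 1 := by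
  rw [kap_rt hN hk, norm_mul, norm_rt_zpow, norm_pow, norm_neg, norm_one, one_pow, one_mul]

lemma kap_inv (hN : 0 < N) {k : ℕ} (hk : k < N) :
    (kap N (rt N) k)⁻¹ = (starRingEnd ℂ) (kap N (rt N) k) := by
  have h := kap_norm hN hk
  have h0 : kap N (rt N) k ≠ 0 := by
    intro h1
    rw [h1, norm_zero] at h
    exact zero_ne_one h
  rw [inv_eq_iff_eq_inv, eq_comm, inv_eq_iff_eq_inv, eq_comm]
  rw [Complex.inv_def, Complex.normSq_eq_norm_sq, h]
  simp

lemma kap_step (hN : 0 < N) {k : ℕ} (hk : k + 1 < N) :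
    kap N (rt N) (k + 1) = - (kap N (rt N) k * rt N ^ ((N : ℤ) - 3 - 2 * k)) := by
  rw [kap_rt hN hk, kap_rt hN (by omega), pow_succ, mul_assoc _ (rt N ^ _) (rt N ^ _),
    ← zpow_add₀ (rt_ne N)]
  have e : ((k + 1 : ℕ) : ℤ) * ((N : ℤ) - 2 - (k + 1 : ℕ)) =
      (k : ℤ) * ((N : ℤ) - 2 - k) + ((N : ℤ) - 3 - 2 * k) := by push_cast; ring
  rw [e]
  ring

/-- the vector `e_0 ⊗ cup` -/
noncomputable def psi (N : ℕ) : I3 N → ℂ := fun p => if (p.1 : ℕ) = 0 then cup N (rt N) p.2 else 0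

lemma hat_psi (hN : 0 < N) (a b c : ℕ) :
    hat (psi N) a b c = if a = 0 ∧ b + c = N - 1 then kap N (rt N) b else 0 := by
  unfold hat psi cup
  by_cases h : a < N ∧ b < N ∧ c < N
  · rw [dif_pos h]
    by_cases h1 : a = 0
    · by_cases h2 : b + c = N - 1
      · rw [if_pos h1, if_pos h2, if_pos ⟨h1, h2⟩]
      · rw [if_pos h1, if_neg h2, if_neg (fun h3 => h2 h3.2)]
    · rw [if_neg h1, if_neg (fun h3 => h1 h3.1)]
  · rw [dif_neg h, if_neg]
    rintro ⟨h1, h2⟩
    apply h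
    omega

lemma psi_InK (hN : 0 < N) : InK (N - 1) (psi N) := by
  refine ⟨?_, ?_⟩
  · intro a b c h
    rw [hat_psi hN] at h
    by_cases h1 : a = 0 ∧ b + c = N - 1
    · omega
    · rw [if_neg h1] at h
      exact absurd rfl h
  · apply hat_ext
    intro a b c
    rw [hat_Et hN, hat_zero, hat_psi hN, hat_psi hN, hat_psi hN, if_neg (by omega)]
    by_cases h : a = 0 ∧ b + 1 + c = N - 1
    · rw [if_pos h, if_pos ⟨h.1, by omega⟩, kap_step hN (by omega)]
      have e1 : br (rt N) ((c : ℤ) + 1) = br (rt N) ((b : ℤ) + 1) := by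
        rw [← br_refl hN]
        congr 1
        omega
      have e2 : rt N ^ ((N : ℤ) - 1 - 2 * c) * rt N ^ ((N : ℤ) - 3 - 2 * b) = 1 := by
        rw [← zpow_add₀ (rt_ne N)]
        have : (N : ℤ) - 1 - 2 * c + ((N : ℤ) - 3 - 2 * b) = 0 := by omega
        rw [this, zpow_zero]
      rw [e1]
      linear_combination (-(br (rt N) ((b : ℤ) + 1) * kap N (rt N) b)) * e2
    · rw [if_neg h, if_neg (by omega)]
      ring

lemma sum_psi (hN : 0 < N) (A : I3 N → ℂ) :
    ∑ r : I3 N, A r * psi N r = ∑ q : Fin N × Fin N, A (⟨0, hN⟩, q) * cup N (rt N) q := by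
  rw [Fintype.sum_prod_type, Finset.sum_eq_single (⟨0, hN⟩ : Fin N)]
  · rfl
  · intro a _ ha
    refine sum_eq_zero fun q _ => ?_
    unfold psi
    rw [if_neg, mul_zero]
    intro h
    exact ha (Fin.ext h)
  · intro h
    exact absurd (mem_univ _) h

/-- the value of the tangle as a matrix element of the form -/
theorem tang_eq (hN : 0 < N) (w : List (ℕ × Bool)) :
    tang N w (rt N) ⟨0, hN⟩ ⟨0, hN⟩ = Hf (psi N) (rep3 N w *ᵥ psi N) := by
  unfold tang Hf
  rw [rep_rep3]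
  have h1 : ∀ p : Fin N × Fin N, (∑ q : Fin N × Fin N, cap N (rt N) p *
      ((rep3 N w).submatrix (Pool.Agent.H927R2.J.SanYB.e3 (Fin N))
        (Pool.Agent.H927R2.J.SanYB.e3 (Fin N))) ![p.1, p.2, ⟨0, hN⟩] ![⟨0, hN⟩, q.1, q.2] *
        cup N (rt N) q) = cap N (rt N) p * (rep3 N w *ᵥ psi N) (p.1, (p.2, ⟨0, hN⟩)) := by
    intro p
    simp only [Matrix.mulVec, dotProduct]
    rw [sum_psi hN, mul_sum]
    refine sum_congr rfl fun q _ => ?_
    rw [mul_assoc]
    rfl
  rw [sum_congr rfl fun p _ => h1 p]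
  rw [Fintype.sum_prod_type (f := fun p : I3 N => (starRingEnd ℂ) (psi N p) *
    (rep3 N w *ᵥ psi N) (rv p)), Finset.sum_eq_single (⟨0, hN⟩ : Fin N)]
  · rw [← Equiv.sum_comp (Equiv.prodComm (Fin N) (Fin N))]
    refine sum_congr rfl fun q _ => ?_
    simp only [Equiv.prodComm_apply, Prod.fst_swap, Prod.snd_swap, rv]
    congr 1
    unfold cap psi cup
    simp only [Prod.fst_swap, Prod.snd_swap, if_true]
    by_cases h : (q.1 : ℕ) + q.2 = N - 1
    · rw [if_pos (by omega), if_pos h, kap_inv hN q.1.isLt]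
    · rw [if_neg (by omega), if_neg h, map_zero]
  · intro a _ ha
    refine sum_eq_zero fun q _ => ?_
    unfold psi
    rw [if_neg, map_zero, zero_mul]
    intro h
    exact ha (Fin.ext h)
  · intro h
    exact absurd (mem_univ _) h

/-- the value of the tangle `bar u ++ w` is the value of the form on the vectors of `u` and `w` -/
theorem tang_dual (hN : 0 < N) {u : List (ℕ × Bool)} (hu : ∀ l ∈ u, l.1 < 2)
    (w : List (ℕ × Bool)) :
    tang N (dual u ++ w) (rt N) ⟨0, hN⟩ ⟨0, hN⟩ =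
      Hf (rep3 N u *ᵥ psi N) (rep3 N w *ᵥ psi N) := by
  rw [tang_eq hN, rep3_append, ← Matrix.mulVec_mulVec, ← hadj_rep3 hN hu, ← Hf_adj]

lemma Hf_psi (hN : 0 < N) : Hf (psi N) (psi N) = 1 := by
  unfold Hf
  rw [Finset.sum_eq_single ((⟨0, hN⟩, (⟨N - 1, by omega⟩, ⟨0, hN⟩)) : I3 N)]
  · unfold psi rv cup
    simp only [if_true, Nat.add_zero]
    have := kap_norm hN (k := N - 1) (by omega)
    rw [Complex.conj_mul', this]
    simp
  · intro p _ hp
    by_cases h1 : (p.1 : ℕ) = 0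
    · by_cases h2 : (p.2.2 : ℕ) = 0
      · by_cases h3 : (p.2.1 : ℕ) = N - 1
        · exfalso
          apply hp
          refine Prod.ext (Fin.ext h1) (Prod.ext (Fin.ext h3) (Fin.ext h2))
        · unfold psi rv cup
          simp only
          rw [if_neg (c := (p.2.1 : ℕ) + p.2.2 = N - 1) (by omega)]
          simp
      · unfold psi rv
        simp only
        rw [if_neg h2, mul_zero]
    · unfold psi
      rw [if_neg h1, map_zero, zero_mul]
  · intro h
    exact absurd (mem_univ _) h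

/-- the form on the highest weight vectors of weight `N - 1` -/
theorem form (hN : 0 < N) : ∃ D : Fin N → ℝ, (∀ i, 0 ≤ D i) ∧ ∀ x y : I3 N → ℂ,
    InK (N - 1) x → InK (N - 1) y →
      Hf x y = ∑ i : Fin N, ((D i : ℝ) : ℂ) * ((starRingEnd ℂ) (LL N (N - 1) i x) *
        LL N (N - 1) i y) := by
  obtain ⟨c, hc⟩ := semi (N := N) (m := N - 1) (by omega) (by omega)
  have hN1 : N - 1 + 1 = N := by omega
  rw [hN1] at hc
  have hD : ∀ i, i < N → 0 ≤ DD N (N - 1) i := fun i hi => DD_nonneg (by omega) (by omega)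
  have hc0 : 0 ≤ c := by
    have h := hc (psi N) (psi N) (psi_InK hN) (psi_InK hN)
    rw [Hf_psi hN] at h
    have h2 : (∑ i ∈ range N, ((DD N (N - 1) i : ℝ) : ℂ) *
        ((starRingEnd ℂ) (LL N (N - 1) i (psi N)) * LL N (N - 1) i (psi N))) =
        ((∑ i ∈ range N, DD N (N - 1) i * ‖LL N (N - 1) i (psi N)‖ ^ 2 : ℝ) : ℂ) := by
      push_cast
      refine sum_congr rfl fun i _ => ?_
      rw [Complex.conj_mul']
    rw [h2] at h
    have h3 : (1 : ℝ) = c * ∑ i ∈ range N, DD N (N - 1) i * ‖LL N (N - 1) i (psi N)‖ ^ 2 := by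
      exact_mod_cast h
    have h4 : 0 ≤ ∑ i ∈ range N, DD N (N - 1) i * ‖LL N (N - 1) i (psi N)‖ ^ 2 :=
      sum_nonneg fun i hi => mul_nonneg (hD i (mem_range.1 hi)) (by positivity)
    by_contra hneg
    push Not at hneg
    nlinarith [mul_nonneg (neg_nonneg.2 hneg.le) h4]
  refine ⟨fun i => c * DD N (N - 1) i, fun i => mul_nonneg hc0 (hD i i.isLt), fun x y hx hy => ?_⟩
  rw [hc x y hx hy, mul_sum, ← Fin.sum_univ_eq_sum_range (fun i => (c : ℂ) *
    (((DD N (N - 1) i : ℝ) : ℂ) * ((starRingEnd ℂ) (LL N (N - 1) i x) * LL N (N - 1) i y)))]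
  refine sum_congr rfl fun i _ => ?_
  push_cast
  ring

end Pool.Agent.V1150.RP
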