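import Pool.Agent.V1150.RP.A
import Pool.Agent.W715.VC.Growth

/-!
Reflection positivity for two-bridge (1,1)-tangles: the norm of a braid word on the highest weight
vectors of weight `N - 1`.
-/

set_option autoImplicit false

namespace Pool.Agent.V1150.RP

open Matrix Finset Filter Topology Pool.Agent.H550R3.Jones Pool.Agent.W715.VC
open scoped Kronecker NNReal ENNReal

variable {N : ℕ}

attribute [local instance] Matrix.linftyOpNormedRing Matrix.linftyOpNormedAlgebra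

/-! ### the form as an inner product -/

/-- coordinates in which the form is standard -/
noncomputable def Ph (D : Fin N → ℝ) (x : I3 N → ℂ) : EuclideanSpace ℂ (Fin N) :=
  WithLp.toLp 2 fun i => ((Real.sqrt (D i) : ℝ) : ℂ) * LL N (N - 1) i x

lemma inner_Ph {D : Fin N → ℝ} (hD : ∀ i, 0 ≤ D i) (x y : I3 N → ℂ) :
    inner ℂ (Ph D x) (Ph D y) = ∑ i : Fin N, ((D i : ℝ) : ℂ) *
      ((starRingEnd ℂ) (LL N (N - 1) i x) * LL N (N - 1) i y) := by
  rw [PiLp.inner_apply]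
  refine sum_congr rfl fun i _ => ?_
  unfold Ph
  simp only [RCLike.inner_apply, map_mul, Complex.conj_ofReal]
  have h : ((Real.sqrt (D i) : ℝ) : ℂ) * ((Real.sqrt (D i) : ℝ) : ℂ) = ((D i : ℝ) : ℂ) := by
    rw [← Complex.ofReal_mul, Real.mul_self_sqrt (hD i)]
  linear_combination ((starRingEnd ℂ) (LL N (N - 1) i x) * LL N (N - 1) i y) * h

/-- the structure of the form on `K_{N-1}` -/
theorem form2 (hN : 0 < N) : ∃ Φ : (I3 N → ℂ) → EuclideanSpace ℂ (Fin N),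
    ∀ x y : I3 N → ℂ, InK (N - 1) x → InK (N - 1) y → Hf x y = inner ℂ (Φ x) (Φ y) := by
  obtain ⟨D, hD, h⟩ := form hN
  exact ⟨Ph D, fun x y hx hy => by rw [h x y hx hy, inner_Ph hD]⟩

/-- Cauchy-Schwarz -/
lemma cs (hN : 0 < N) {x y : I3 N → ℂ} (hx : InK (N - 1) x) (hy : InK (N - 1) y) :
    ‖Hf x y‖ ^ 2 ≤ ‖Hf x x‖ * ‖Hf y y‖ := by
  obtain ⟨Φ, h⟩ := form2 hN
  rw [h x y hx hy, h x x hx hx, h y y hy hy, inner_self_eq_norm_sq_to_K, inner_self_eq_norm_sq_to_K]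
  have h1 := norm_inner_le_norm (𝕜 := ℂ) (Φ x) (Φ y)
  have e : ∀ z : EuclideanSpace ℂ (Fin N), ‖((‖z‖ : ℝ) : ℂ) ^ 2‖ = ‖z‖ ^ 2 := fun z => by
    rw [norm_pow, Complex.norm_real, norm_norm]
  have e1 := e (Φ x)
  have e2 := e (Φ y)
  calc ‖inner ℂ (Φ x) (Φ y)‖ ^ 2 ≤ (‖Φ x‖ * ‖Φ y‖) ^ 2 := pow_le_pow_left₀ (norm_nonneg _) h1 2
    _ = ‖Φ x‖ ^ 2 * ‖Φ y‖ ^ 2 := by ring
    _ = _ := by rw [← e1, ← e2]; rfl

/-! ### the power trick -/

/-- the form is bounded by the operator norm -/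
lemma Hf_bound (x : I3 N → ℂ) (B : M3 N) : ‖Hf x (B *ᵥ x)‖ ≤ (∑ p, ‖x p‖) * ‖x‖ * ‖B‖ := by
  unfold Hf
  refine (_root_.norm_sum_le _ _).trans ?_
  rw [mul_assoc, sum_mul]
  refine sum_le_sum fun p _ => ?_
  rw [norm_mul, RCLike.norm_conj]
  refine mul_le_mul_of_nonneg_left ?_ (norm_nonneg _)
  refine (norm_le_pi_norm (B *ᵥ x) (rv p)).trans ?_
  rw [mul_comm]
  exact Matrix.linfty_opNorm_mulVec B x

/-- eventually `‖T^n‖ ≤ r^n` for `r` above the spectral radius -/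
lemma gelfand (hN : 0 < N) {T : M3 N} {M r : ℝ} (hM : ∀ a ∈ T.charpoly.roots, ‖a‖ ≤ M)
    (hM0 : 0 ≤ M) (hr : M < r) : ∀ᶠ n : ℕ in atTop, ‖T ^ n‖ ≤ r ^ n := by
  have : Nonempty (I3 N) := ⟨(⟨0, hN⟩, (⟨0, hN⟩, ⟨0, hN⟩))⟩
  have : CompleteSpace (M3 N) := FiniteDimensional.complete ℂ _
  have hrad : spectralRadius ℂ T ≤ ENNReal.ofReal M := by
    unfold spectralRadius
    refine iSup₂_le fun k hk => ?_
    have hk2 : k ∈ T.charpoly.roots := by
      rw [Polynomial.mem_roots (Matrix.charpoly_monic T).ne_zero]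
      exact Matrix.mem_spectrum_iff_isRoot_charpoly.1 hk
    have h1 := hM k hk2
    rw [← enorm_eq_nnnorm, ← ofReal_norm]
    exact ENNReal.ofReal_le_ofReal h1
  have hlt : spectralRadius ℂ T < ENNReal.ofReal r :=
    lt_of_le_of_lt hrad ((ENNReal.ofReal_lt_ofReal_iff (by linarith)).2 hr)
  have hlim := spectrum.pow_nnnorm_pow_one_div_tendsto_nhds_spectralRadius T
  filter_upwards [hlim.eventually (gt_mem_nhds hlt), eventually_ge_atTop 1] with n hn hn1
  have hn0 : (0 : ℝ) < n := by exact_mod_cast hn1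
  have h2 : ((‖T ^ n‖₊ : ℝ≥0∞)) ≤ (ENNReal.ofReal r) ^ n := by
    have h3 := ENNReal.rpow_le_rpow hn.le hn0.le
    rw [← ENNReal.rpow_mul, one_div, inv_mul_cancel₀ hn0.ne', ENNReal.rpow_one,
      ENNReal.rpow_natCast] at h3
    exact h3
  rw [← enorm_eq_nnnorm, ← ofReal_norm, ← ENNReal.ofReal_pow (by linarith)] at h2
  exact (ENNReal.ofReal_le_ofReal_iff (pow_nonneg (by linarith) _)).1 h2

/-- a positive real sequence argument -/
lemma ratio_le {t S C r : ℝ} (hS : 0 < S) (hr : 0 < r) (ht : 0 ≤ t)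
    (h : ∀ᶠ k : ℕ in atTop, t ^ (2 ^ k) ≤ S ^ (2 ^ k - 1) * (C * r ^ (2 ^ k))) : t ≤ S * r := by
  by_contra hcon
  push Not at hcon
  set ρ : ℝ := t / (S * r) with hρ
  have hρ1 : 1 < ρ := (one_lt_div (by positivity)).2 hcon
  have h2 : ∀ᶠ k : ℕ in atTop, ρ ^ (2 ^ k) ≤ C / S := by
    filter_upwards [h] with k hk
    have hpos : 0 < (S * r) ^ (2 ^ k) := by positivity
    rw [hρ, div_pow, div_le_div_iff₀ hpos hS]
    have e : S ^ (2 ^ k - 1) * S = S ^ (2 ^ k) := by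
      rw [← pow_succ]
      congr 1
      have : 1 ≤ 2 ^ k := Nat.one_le_two_pow
      omega
    calc t ^ (2 ^ k) * S ≤ S ^ (2 ^ k - 1) * (C * r ^ (2 ^ k)) * S :=
          mul_le_mul_of_nonneg_right hk hS.le
      _ = C * (S * r) ^ (2 ^ k) := by rw [mul_pow, ← e]; ring
  have h3 : Tendsto (fun k : ℕ => ρ ^ (2 ^ k)) atTop atTop :=
    (tendsto_pow_atTop_atTop_of_one_lt hρ1).comp (tendsto_pow_atTop_atTop_of_one_lt (by norm_num : (1 : ℕ) < 2))
  obtain ⟨k, hk1, hk2⟩ := (h2.and (h3.eventually (eventually_gt_atTop (C / S)))).exists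
  linarith

/-- **the norm bound**: `A` increases the form at most by the spectral radius of `A† A` -/
theorem norm_bound (hN : 0 < N) {A : M3 N} (hA : Good A) (hA' : Good (hadj A)) {M : ℝ}
    (hM0 : 0 ≤ M) (hM : ∀ a ∈ (hadj A * A).charpoly.roots, ‖a‖ ≤ M) {x : I3 N → ℂ}
    (hx : InK (N - 1) x) : ‖Hf (A *ᵥ x) (A *ᵥ x)‖ ≤ M * ‖Hf x x‖ := by
  set T := hadj A * A with hT
  have hGT : Good T := hA'.mul hA
  have hTK : ∀ n : ℕ, ∀ y, InK (N - 1) y → InK (N - 1) (T ^ n *ᵥ y) := by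
    intro n
    induction n with
    | zero => intro y hy; rw [pow_zero, Matrix.one_mulVec]; exact hy
    | succ n ih => intro y hy; rw [pow_succ, ← Matrix.mulVec_mulVec]; exact ih _ (hGT.InK hy)
  have hTadj : hadj T = T := by
    rw [hT, hadj_mul]
    congr 1
    ext p q
    simp only [hadj, Complex.conj_conj, rv_rv]
  have hself : ∀ n : ℕ, ∀ y z : I3 N → ℂ, Hf (T ^ n *ᵥ y) z = Hf y (T ^ n *ᵥ z) := by
    intro n
    induction n with
    | zero => intro y z; rw [pow_zero, Matrix.one_mulVec, Matrix.one_mulVec]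
    | succ n ih =>
      intro y z
      conv_lhs => rw [pow_succ, ← Matrix.mulVec_mulVec]
      rw [ih, Hf_adj, hTadj, Matrix.mulVec_mulVec, ← pow_succ']
  have hAT : Hf (A *ᵥ x) (A *ᵥ x) = Hf x (T *ᵥ x) := by
    rw [Hf_adj, Matrix.mulVec_mulVec]
  have hstep : ∀ n : ℕ, ‖Hf x (T ^ n *ᵥ x)‖ ^ 2 ≤ ‖Hf x x‖ * ‖Hf x (T ^ (2 * n) *ᵥ x)‖ := by
    intro n
    have h1 := cs hN hx (hTK n x hx)
    rw [hself n x (T ^ n *ᵥ x), Matrix.mulVec_mulVec, ← pow_add, ← two_mul] at h1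
    exact h1
  rw [hAT]
  set t := ‖Hf x (T *ᵥ x)‖ with ht
  set S := ‖Hf x x‖ with hS
  have hit : ∀ k : ℕ, t ^ (2 ^ k) ≤ S ^ (2 ^ k - 1) * ‖Hf x (T ^ (2 ^ k) *ᵥ x)‖ := by
    intro k
    induction k with
    | zero => simp [ht]
    | succ k ih =>
      have h1 : 1 ≤ 2 ^ k := Nat.one_le_two_pow
      have h2 : 2 ^ (k + 1) = 2 * 2 ^ k := by ring
      calc t ^ (2 ^ (k + 1)) = (t ^ (2 ^ k)) ^ 2 := by rw [← pow_mul]; congr 1
        _ ≤ (S ^ (2 ^ k - 1) * ‖Hf x (T ^ (2 ^ k) *ᵥ x)‖) ^ 2 :=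
            pow_le_pow_left₀ (by positivity) ih 2
        _ = S ^ (2 * (2 ^ k - 1)) * ‖Hf x (T ^ (2 ^ k) *ᵥ x)‖ ^ 2 := by
            rw [mul_pow, ← pow_mul]; congr 2; ring
        _ ≤ S ^ (2 * (2 ^ k - 1)) * (S * ‖Hf x (T ^ (2 * 2 ^ k) *ᵥ x)‖) :=
            mul_le_mul_of_nonneg_left (hstep _) (by positivity)
        _ = S ^ (2 ^ (k + 1) - 1) * ‖Hf x (T ^ (2 ^ (k + 1)) *ᵥ x)‖ := by
            rw [← mul_assoc, ← pow_succ, h2]
            congr 2
            omega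
  rcases (norm_nonneg (Hf x x)).lt_or_eq with hS0 | hS0
  · -- the main case
    refine le_of_forall_pos_le_add fun ε hε => ?_
    have hr : M < M + ε / S := by
      have : 0 < ε / S := by positivity
      linarith
    have hg := gelfand hN hM hM0 hr
    have hr0 : 0 < M + ε / S := by linarith
    have hpow : Tendsto (fun k : ℕ => 2 ^ k) atTop atTop :=
      tendsto_pow_atTop_atTop_of_one_lt (by norm_num : (1 : ℕ) < 2)
    have h1 : t ≤ S * (M + ε / S) := by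
      refine ratio_le (C := (∑ p, ‖x p‖) * ‖x‖) hS0 hr0 (norm_nonneg _) ?_
      filter_upwards [hpow.eventually hg] with k hk
      refine (hit k).trans (mul_le_mul_of_nonneg_left ?_ (by positivity))
      refine (Hf_bound x _).trans (mul_le_mul_of_nonneg_left hk (by positivity))
    have h2 : S * (M + ε / S) = M * S + ε := by
      have : S ≠ 0 := hS0.ne'
      field_simp
    linarith
  · have h1 := hit 1
    have h2 : (2 : ℕ) ^ 1 - 1 = 1 := by norm_num
    rw [h2, pow_one, pow_one] at h1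
    have hS1 : S = 0 := hS0.symm
    rw [hS1, zero_mul] at h1
    rw [hS1, mul_zero]
    nlinarith [norm_nonneg (Hf x (T *ᵥ x))]

/-! ### the bound for words -/

lemma dual_lt {u : List (ℕ × Bool)} : ∀ l ∈ dual u, l.1 < 2 := by
  intro l hl
  unfold dual at hl
  rw [List.mem_reverse, List.mem_map] at hl
  obtain ⟨a, -, rfl⟩ := hl
  simp only [dl]
  omega

lemma dual_dual {u : List (ℕ × Bool)} (hu : ∀ l ∈ u, l.1 < 2) : dual (dual u) = u := by
  unfold dual
  rw [List.map_reverse, List.reverse_reverse, List.map_map]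
  conv_rhs => rw [← List.map_id u]
  refine List.map_congr_left fun l hl => ?_
  have h := hu l hl
  obtain ⟨k, b⟩ := l
  simp only [Function.comp_apply, dl, Bool.not_not, id_eq, Prod.mk.injEq, and_true]
  simp only at h
  omega

/-- all eigenvalues of a palindromic word are bounded by the trace -/
lemma roots_le (hN : 0 < N) {u : List (ℕ × Bool)} (hu : ∀ l ∈ u, l.1 < 2) :
    ∀ a ∈ (rep3 N (u ++ dual u)).charpoly.roots, ‖a‖ ≤ ‖(rep3 N (u ++ dual u)).trace‖ + (N : ℝ) ^ 3 := by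
  set B := rep3 N (u ++ dual u) with hB
  have hcard : B.charpoly.roots.card = N ^ 3 := by
    rw [card_roots' B]
    simp only [I3, Fintype.card_prod, Fintype.card_fin]
    ring
  have hs : ∀ a ∈ B.charpoly.roots, (∃ r : ℝ, 0 < r ∧ a = r) ∨ ‖a‖ = 1 := by
    intro a ha
    obtain ⟨m, hm⟩ := eig_of_root (good_rep3 _) ha
    exact eig_main hN hu hm
  obtain ⟨M, hM1, hM2, hM3⟩ := exists_radius _ hs
  intro a ha
  refine (hM2 a ha).trans ?_
  rw [Matrix.trace_eq_sum_roots_charpoly B]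
  have hc : (1 : ℝ) ≤ (N : ℝ) ^ 3 := one_le_pow₀ (by exact_mod_cast hN)
  rcases hM3 with h | h
  · rw [h]
    have := norm_nonneg B.charpoly.roots.sum
    linarith
  · obtain ⟨t, ht⟩ := Multiset.exists_cons_of_mem h
    have hcard2 : (t.card : ℝ) + 1 = (N : ℝ) ^ 3 := by
      have h1 : B.charpoly.roots.card = t.card + 1 := by rw [ht, Multiset.card_cons]
      rw [hcard] at h1
      exact_mod_cast h1.symm
    have h1 := re_sum_ge t (fun a ha => hs a (by rw [ht]; exact Multiset.mem_cons_of_mem ha)) 1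
    simp only [pow_one, Multiset.map_id'] at h1
    have h2 := Complex.re_le_norm B.charpoly.roots.sum
    rw [ht, Multiset.sum_cons, Complex.add_re, Complex.ofReal_re] at h2
    rw [ht, Multiset.sum_cons]
    linarith

/-- **the norm of a word** -/
theorem word_bound (hN : 0 < N) {w : List (ℕ × Bool)} (hw : ∀ l ∈ w, l.1 < 2) {x : I3 N → ℂ}
    (hx : InK (N - 1) x) : ‖Hf (rep3 N w *ᵥ x) (rep3 N w *ᵥ x)‖ ≤
      (‖(rep3 N (w ++ dual w)).trace‖ + (N : ℝ) ^ 3) * ‖Hf x x‖ := by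
  have h1 : hadj (rep3 N w) * rep3 N w = rep3 N (dual w ++ dual (dual w)) := by
    rw [dual_dual hw, rep3_append, hadj_rep3 hN hw]
  have h2 : (rep3 N (dual w ++ dual (dual w))).trace = (rep3 N (w ++ dual w)).trace := by
    rw [dual_dual hw, rep3_append, rep3_append, Matrix.trace_mul_comm]
  have h3 := roots_le hN (u := dual w) dual_lt
  rw [h2, ← h1] at h3
  refine norm_bound hN (good_rep3 w) ?_ (by positivity) h3 hx
  rw [hadj_rep3 hN hw]
  exact good_rep3 _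

end Pool.Agent.V1150.RP
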