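import Pool.Agent.V1150.RP.B

/-!
Reflection positivity for two-bridge (1,1)-tangles: the kernel is positive semidefinite, and the
chain inequality.
-/

set_option autoImplicit false

namespace Pool.Agent.V1150.RP

open Matrix Finset Filter Topology Pool.Agent.H550R3.Jones Pool.Agent.W715.VC
open scoped Kronecker

variable {N : ℕ}

/-- the value of the (1,1)-tangle of a word -/
noncomputable def kv (N : ℕ) (hN : 0 < N) (w : List (ℕ × Bool)) : ℂ :=
  tang N w (rt N) ⟨0, hN⟩ ⟨0, hN⟩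

lemma rep3_InK (hN : 0 < N) (w : List (ℕ × Bool)) : InK (N - 1) (rep3 N w *ᵥ psi N) :=
  (good_rep3 w).InK (psi_InK hN)

lemma kv_dual (hN : 0 < N) {u : List (ℕ × Bool)} (hu : ∀ l ∈ u, l.1 < 2) (w : List (ℕ × Bool)) :
    kv N hN (dual u ++ w) = Hf (rep3 N u *ᵥ psi N) (rep3 N w *ᵥ psi N) := tang_dual hN hu w

/-- the kernel is a Gram matrix of vectors of dimension `N` -/
theorem gram (hN : 0 < N) : ∃ X : List (ℕ × Bool) → Fin N → ℂ, ∀ u w : List (ℕ × Bool),
    (∀ l ∈ u, l.1 < 2) → kv N hN (dual u ++ w) = ∑ k, (starRingEnd ℂ) (X u k) * X w k := by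
  obtain ⟨Φ, h⟩ := form2 hN
  refine ⟨fun w => (Φ (rep3 N w *ᵥ psi N)).ofLp, fun u w hu => ?_⟩
  rw [kv_dual hN hu, h _ _ (rep3_InK hN u) (rep3_InK hN w), PiLp.inner_apply]
  refine sum_congr rfl fun k _ => ?_
  rw [RCLike.inner_apply, mul_comm]

/-- positive semidefiniteness and the bound of the rank -/
theorem psd (hN : 0 < N) {n : ℕ} (u : Fin n → List (ℕ × Bool)) (hu : ∀ i, ∀ l ∈ u i, l.1 < 2) :
    (∀ c : Fin n → ℂ, ∃ r : ℝ, 0 ≤ r ∧
      ∑ i, ∑ j, (starRingEnd ℂ) (c i) * c j * kv N hN (dual (u i) ++ u j) = r) ∧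
    (Matrix.of fun i j => kv N hN (dual (u i) ++ u j)).rank ≤ N := by
  obtain ⟨X, hX⟩ := gram hN
  constructor
  · intro c
    refine ⟨∑ k, ‖∑ j, c j * X (u j) k‖ ^ 2, sum_nonneg fun k _ => by positivity, ?_⟩
    push_cast
    have h1 : ∀ k, ((‖∑ j, c j * X (u j) k‖ : ℝ) : ℂ) ^ 2 =
        ∑ i, ∑ j, (starRingEnd ℂ) (c i) * c j * ((starRingEnd ℂ) (X (u i) k) * X (u j) k) := by
      intro k
      rw [← Complex.conj_mul', map_sum, sum_mul_sum]
      refine sum_congr rfl fun i _ => sum_congr rfl fun j _ => ?_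
      rw [map_mul]
      ring
    have h0 : ∀ i j, (starRingEnd ℂ) (c i) * c j * kv N hN (dual (u i) ++ u j) =
        ∑ k, (starRingEnd ℂ) (c i) * c j * ((starRingEnd ℂ) (X (u i) k) * X (u j) k) := by
      intro i j
      rw [hX _ _ (hu i), mul_sum]
    simp only [h0]
    rw [sum_congr rfl fun i _ => sum_comm, sum_comm]
    exact sum_congr rfl fun k _ => (h1 k).symm
  · have h2 : (Matrix.of fun i j => kv N hN (dual (u i) ++ u j)) =
        (Matrix.of fun (k : Fin N) (j : Fin n) => X (u j) k)ᴴ *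
          (Matrix.of fun (k : Fin N) (j : Fin n) => X (u j) k) := by
      ext i j
      rw [Matrix.mul_apply]
      simp only [Matrix.of_apply, Matrix.conjTranspose_apply]
      rw [hX _ _ (hu i)]
      rfl
    rw [h2]
    refine (Matrix.rank_mul_le_right _ _).trans ?_
    refine (Matrix.rank_le_card_height _).trans ?_
    rw [Fintype.card_fin]

lemma kv_self_eq (hN : 0 < N) {u : List (ℕ × Bool)} (hu : ∀ l ∈ u, l.1 < 2) :
    ∃ r : ℝ, 0 ≤ r ∧ kv N hN (dual u ++ u) = r := by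
  obtain ⟨X, hX⟩ := gram hN
  refine ⟨∑ k, ‖X u k‖ ^ 2, sum_nonneg fun k _ => by positivity, ?_⟩
  rw [hX u u hu]
  push_cast
  refine sum_congr rfl fun k _ => ?_
  rw [Complex.conj_mul']

lemma winv_lt {u : List (ℕ × Bool)} (hu : ∀ l ∈ u, l.1 < 2) : ∀ l ∈ winv u, l.1 < 2 := by
  intro l hl
  unfold winv at hl
  rw [List.mem_reverse, List.mem_map] at hl
  obtain ⟨a, ha, rfl⟩ := hl
  exact hu a ha

/-- the invariants of the palindromic words are positive -/
theorem kv_self_pos (hN : 0 < N) {u : List (ℕ × Bool)} (hu : ∀ l ∈ u, l.1 < 2) :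
    ∃ r : ℝ, 0 < r ∧ kv N hN (dual u ++ u) = r := by
  obtain ⟨r, hr, h⟩ := kv_self_eq hN hu
  refine ⟨r, lt_of_le_of_ne hr ?_, h⟩
  intro h0
  rw [kv_dual hN hu, ← h0] at h
  have h1 : Hf (rep3 N (dual (winv u)) *ᵥ psi N) (rep3 N u *ᵥ psi N) = 1 := by
    rw [Hf_adj, ← hadj_rep3 hN (winv_lt hu), Matrix.mulVec_mulVec]
    have e : hadj (hadj (rep3 N (winv u))) = rep3 N (winv u) := by
      ext p q
      simp only [hadj, Complex.conj_conj, rv_rv]
    rw [e, rep3_winv, Matrix.one_mulVec, Hf_psi hN]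
  have h2 := cs hN (rep3_InK hN (dual (winv u))) (rep3_InK hN u)
  rw [h1, h] at h2
  simp at h2
  linarith

/-- words in a row -/
lemma flat_bound (hN : 0 < N) : ∀ ws : List (List (ℕ × Bool)), (∀ s ∈ ws, ∀ l ∈ s, l.1 < 2) →
    ∀ x : I3 N → ℂ, InK (N - 1) x →
      ‖Hf (rep3 N ws.flatten *ᵥ x) (rep3 N ws.flatten *ᵥ x)‖ ≤
        (ws.map fun s => ‖(rep3 N (s ++ dual s)).trace‖ + (N : ℝ) ^ 3).prod * ‖Hf x x‖ := by
  intro ws
  induction ws with
  | nil =>
    intro _ x _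
    rw [List.flatten_nil, rep3_nil, Matrix.one_mulVec, List.map_nil, List.prod_nil, one_mul]
  | cons s ws ih =>
    intro h x hx
    rw [List.flatten_cons, rep3_append, ← Matrix.mulVec_mulVec, List.map_cons, List.prod_cons]
    have h1 := word_bound hN (w := s) (h s List.mem_cons_self) ((good_rep3 ws.flatten).InK hx)
    have h2 := ih (fun s hs => h s (List.mem_cons_of_mem _ hs)) x hx
    refine h1.trans ?_
    rw [mul_assoc]
    exact mul_le_mul_of_nonneg_left h2 (by positivity)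

/-- **the chain inequality** -/
theorem chain (hN : 0 < N) {u w : List (ℕ × Bool)} (hu : ∀ l ∈ u, l.1 < 2)
    (hw : ∀ l ∈ w, l.1 < 2) {ws : List (List (ℕ × Bool))} (hws : ∀ s ∈ ws, ∀ l ∈ s, l.1 < 2) :
    ‖kv N hN (dual u ++ (ws.flatten ++ w))‖ ^ 2 ≤ ‖kv N hN (dual u ++ u)‖ *
      (ws.map fun s => ‖(rep3 N (s ++ dual s)).trace‖ + (N : ℝ) ^ 3).prod *
        ‖kv N hN (dual w ++ w)‖ := by
  rw [kv_dual hN hu, kv_dual hN hu, kv_dual hN hw, rep3_append, ← Matrix.mulVec_mulVec]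
  have h1 := cs hN (rep3_InK hN u) ((good_rep3 ws.flatten).InK (rep3_InK hN w))
  refine h1.trans ?_
  rw [mul_assoc]
  exact mul_le_mul_of_nonneg_left (flat_bound hN ws hws _ (rep3_InK hN w)) (norm_nonneg _)

lemma kv_nil (hN : 0 < N) : kv N hN [] = 1 := by
  have h := kv_dual hN (u := []) (by simp) []
  have e : dual [] ++ [] = ([] : List (ℕ × Bool)) := rfl
  rw [e, rep3_nil, Matrix.one_mulVec, Hf_psi hN] at h
  exact h

/-! ### growth -/

/-- `x N` grows at most like `exp (V N / (2 π))` -/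
def Gr (x : ℕ → ℝ) (V : ℝ) : Prop :=
  ∀ ε : ℝ, 0 < ε → ∀ᶠ N : ℕ in atTop, x N ≤ Real.exp ((V / (2 * Real.pi) + ε) * N)

lemma Gr.mul {x y : ℕ → ℝ} {V W : ℝ} (hx : Gr x V) (hy : Gr y W) (hy0 : ∀ N, 0 ≤ y N) :
    Gr (fun N => x N * y N) (V + W) := by
  intro ε hε
  filter_upwards [hx (ε / 2) (by linarith), hy (ε / 2) (by linarith)] with N h1 h2
  have e : Real.exp (((V + W) / (2 * Real.pi) + ε) * N) =
      Real.exp ((V / (2 * Real.pi) + ε / 2) * N) * Real.exp ((W / (2 * Real.pi) + ε / 2) * N) := by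
    rw [← Real.exp_add]
    congr 1
    ring
  rw [e]
  exact mul_le_mul h1 h2 (hy0 N) (Real.exp_pos _).le

lemma Gr.one : Gr (fun _ => 1) 0 := by
  intro ε hε
  filter_upwards with N
  refine Real.one_le_exp ?_
  rw [zero_div, zero_add]
  positivity

lemma Gr.prod {α : Type} {x : α → ℕ → ℝ} {V : α → ℝ} (hx0 : ∀ a N, 0 ≤ x a N) (l : List α)
    (h : ∀ a ∈ l, Gr (x a) (V a)) :
    Gr (fun N => (l.map fun a => x a N).prod) (l.map V).sum := by
  induction l with
  | nil => simpa using Gr.one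
  | cons a l ih =>
    simp only [List.map_cons, List.prod_cons, List.sum_cons]
    refine Gr.mul (h a List.mem_cons_self) (ih fun b hb => h b (List.mem_cons_of_mem _ hb)) ?_
    intro N
    refine List.prod_nonneg ?_
    intro y hy
    rw [List.mem_map] at hy
    obtain ⟨b, -, rfl⟩ := hy
    exact hx0 b N

lemma Gr.sqrt {x y : ℕ → ℝ} {V : ℝ} (hy : Gr y V) (h : ∀ᶠ N : ℕ in atTop, (x N) ^ 2 ≤ y N) :
    Gr x (V / 2) := by
  intro ε hε
  filter_upwards [hy (2 * ε) (by linarith), h] with N h1 h2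
  refine le_of_sq_le_sq ?_ (Real.exp_pos _).le
  refine h2.trans (h1.trans (le_of_eq ?_))
  rw [← Real.exp_nat_mul]
  congr 1
  push_cast
  ring

/-- a limit of the growth rates gives a growth bound -/
lemma Gr.of_tendsto {x : ℕ → ℝ} (hx : ∀ N, 0 ≤ x N) {V : ℝ}
    (h : Tendsto (fun N : ℕ => 2 * Real.pi * (Real.log (x N) / N)) atTop (𝓝 V)) : Gr x V := by
  intro ε hε
  have hpi := Real.pi_pos
  filter_upwards [h.eventually (gt_mem_nhds (show V < V + 2 * Real.pi * ε by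
    have : 0 < 2 * Real.pi * ε := by positivity
    linarith)), eventually_ge_atTop 1] with N h1 h2
  have hN : (0 : ℝ) < N := by exact_mod_cast h2
  rcases (hx N).lt_or_eq with h3 | h3
  · rw [← Real.log_le_iff_le_exp h3]
    have e : (V / (2 * Real.pi) + ε) = (V + 2 * Real.pi * ε) / (2 * Real.pi) := by
      field_simp
    rw [e]
    have h4 : Real.log (x N) / N < (V + 2 * Real.pi * ε) / (2 * Real.pi) := by
      rw [lt_div_iff₀ (by positivity)]
      linarith
    rw [div_lt_iff₀ hN] at h4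
    exact h4.le
  · rw [← h3]
    exact (Real.exp_pos _).le

/-- adding a power of `N` does not change the growth -/
lemma Gr.add_cube {x : ℕ → ℝ} {V : ℝ} (hx : Gr x V) (hV : 0 ≤ V) :
    Gr (fun N => x N + (N : ℝ) ^ 3) V := by
  intro ε hε
  have h1 := hx (ε / 2) (by linarith)
  have h2 : ∀ᶠ N : ℕ in atTop, 1 + (N : ℝ) ^ 3 ≤ Real.exp (ε / 2 * N) := by
    have h3 : Tendsto (fun y : ℝ => Real.exp ((ε / 2) * y) / ((y : ℝ) ^ 3)) atTop atTop := by
      have := tendsto_exp_mul_div_rpow_atTop 3 (ε / 2) (by linarith)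
      refine this.congr fun y => ?_
      norm_num
    have h4 := (h3.comp tendsto_natCast_atTop_atTop).eventually (eventually_ge_atTop 2)
    filter_upwards [h4, eventually_ge_atTop 1] with N h5 h6
    have hN : (1 : ℝ) ≤ N := by exact_mod_cast h6
    have hN3 : (1 : ℝ) ≤ (N : ℝ) ^ 3 := one_le_pow₀ hN
    simp only [Function.comp_apply] at h5
    rw [le_div_iff₀ (by positivity)] at h5
    linarith
  filter_upwards [h1, h2] with N h5 h6
  have hpi := Real.pi_pos
  have e : Real.exp ((V / (2 * Real.pi) + ε) * N) =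
      Real.exp ((V / (2 * Real.pi) + ε / 2) * N) * Real.exp (ε / 2 * N) := by
    rw [← Real.exp_add]
    congr 1
    ring
  rw [e]
  have h7 : 1 ≤ Real.exp ((V / (2 * Real.pi) + ε / 2) * N) := Real.one_le_exp (by positivity)
  have h8 : (0 : ℝ) ≤ (N : ℝ) ^ 3 := by positivity
  nlinarith

end Pool.Agent.V1150.RP
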