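import Pool.Agent.V1150.RP.D
import Pool.Agent.W709.RT.San

/-!
Reflection positivity for two-bridge (1,1)-tangles: explicit bounds for the growth.
-/

set_option autoImplicit false

namespace Pool.Agent.V1150.RP

open Matrix Finset Filter Topology Pool.Agent.H550R3.Jones Pool.Agent.W715.VC
open Pool.Agent.W719.BX (uA bAngleN bvolN)
open scoped Kronecker

variable {N : ℕ}

/-- the absolute value of the invariant -/
noncomputable def kn (w : List (ℕ × Bool)) (N : ℕ) : ℝ := if h : 0 < N then ‖kv N h w‖ else 0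

lemma kn_nonneg (w : List (ℕ × Bool)) (N : ℕ) : 0 ≤ kn w N := by
  unfold kn
  split_ifs
  · exact norm_nonneg _
  · exact le_rfl

/-- the syllables `s_1^n` and `s_2^{-n}` -/
def syll (s : Bool × ℕ) : List (ℕ × Bool) := List.replicate s.2 (if s.1 then (0, true) else (1, false))

lemma dual_uA (n : ℕ) : dual (uA n) = List.replicate n (1, false) := by
  unfold dual uA
  rw [List.map_replicate, List.reverse_replicate]
  rfl

lemma uA_lt (n : ℕ) : ∀ l ∈ uA n, l.1 < 2 := by
  intro l hl
  unfold uA at hl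
  rw [List.eq_of_mem_replicate hl]
  norm_num

lemma syll_lt (s : Bool × ℕ) : ∀ l ∈ syll s, l.1 < 2 := by
  intro l hl
  unfold syll at hl
  rw [List.eq_of_mem_replicate hl]
  split_ifs <;> norm_num

lemma syll_trace (s : Bool × ℕ) :
    (rep3 N (syll s ++ dual (syll s))).trace = (rep3 N (uA s.2 ++ dual (uA s.2))).trace := by
  obtain ⟨b, n⟩ := s
  cases b
  · have e : syll (false, n) = dual (uA n) := by rw [dual_uA]; rfl
    rw [e, dual_dual (uA_lt n), rep3_append, rep3_append, Matrix.trace_mul_comm]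
  · rfl

/-- the block of `n` crossings -/
noncomputable def bl (n N : ℕ) : ℝ := ‖(rep3 N (uA n ++ dual (uA n))).trace‖

lemma exV (n : ℕ) : ∃ V : ℝ, (n = 1 → V = 8 * GapVol.lob (Real.pi / 6)) ∧
    (4 ≤ n → IsGreatest {x : ℝ | ∃ w, bAngleN n 1 w ∧ bvolN n 1 w = x} V) ∧
    (n = 1 ∨ 4 ≤ n → 0 ≤ V ∧ Gr (bl n) V) := by
  have hl := lob_pos
  by_cases h : 4 ≤ n
  · obtain ⟨V, h1, h2, h3⟩ := Pool.Agent.W719.BX.mainN (n := 1) h le_rfl
    refine ⟨V, fun h4 => by omega, fun _ => h1, fun _ => ⟨?_, ?_⟩⟩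
    · push_cast at h2
      linarith
    · refine Gr.of_tendsto (fun N => norm_nonneg _) (h3.congr fun N => ?_)
      rw [wpow_one']
      change _ = 2 * Real.pi * (Real.log ‖(rep3 N (uA n ++ dual (uA n))).trace‖ / N)
      ring
  · refine ⟨8 * GapVol.lob (Real.pi / 6), fun _ => rfl, fun h1 => absurd h1 h, fun h1 => ?_⟩
    have hn : n = 1 := by omega
    subst hn
    exact ⟨by linarith, Gr.of_tendsto (fun N => norm_nonneg _) growth_one⟩

lemma exW (n : ℕ) : ∃ W : ℝ, (n = 0 → W = 0) ∧
    (4 ≤ n → IsGreatest {x : ℝ | ∃ w, Pool.Agent.W709.VC.IsAngle n n w ∧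
      Pool.Agent.W709.VC.volw n n w = x} W) ∧
    (4 ≤ n → Tendsto (fun N : ℕ => 2 * Real.pi * (Real.log (kn (dual (uA n) ++ uA n) N) / N))
      atTop (𝓝 W)) ∧
    (n = 0 ∨ 4 ≤ n → Gr (kn (dual (uA n) ++ uA n)) W) := by
  by_cases h : 4 ≤ n
  · obtain ⟨W, h1, h2⟩ := Pool.Agent.W709.RT.main h
    have h3 : Tendsto (fun N : ℕ => 2 * Real.pi * (Real.log (kn (dual (uA n) ++ uA n) N) / N))
        atTop (𝓝 W) := by
      refine h2.congr' ?_
      filter_upwards [eventually_gt_atTop 0] with N hN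
      congr 3
      unfold kn
      rw [dif_pos hN, dual_uA]
      unfold Pool.Agent.W709.RT.jt
      rw [dif_pos hN]
      rfl
    exact ⟨W, fun h4 => by omega, fun _ => h1, fun _ => h3,
      fun _ => Gr.of_tendsto (kn_nonneg _) h3⟩
  · refine ⟨0, fun _ => rfl, fun h1 => absurd h1 h, fun h1 => absurd h1 h, fun h1 => ?_⟩
    have hn : n = 0 := by omega
    subst hn
    have e : kn (dual (uA 0) ++ uA 0) = fun N => if 0 < N then 1 else 0 := by
      funext N
      unfold kn
      by_cases hN : 0 < N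
      · rw [dif_pos hN, if_pos hN]
        have e1 : dual (uA 0) ++ uA 0 = [] := rfl
        rw [e1, kv_nil hN, norm_one]
      · rw [dif_neg hN, if_neg hN]
    rw [e]
    intro ε hε
    filter_upwards with N
    refine le_trans ?_ (Real.one_le_exp (by rw [zero_div, zero_add]; positivity))
    split_ifs <;> norm_num

/-- the word `s_2^{-a} ⋯ s_1^b` with syllables between -/
def wd (a : ℕ) (l : List (Bool × ℕ)) (b : ℕ) : List (ℕ × Bool) :=
  List.replicate a (1, false) ++ ((l.map syll).flatten ++ List.replicate b (0, true))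

/-- **the explicit bounds** -/
theorem explicit : ∃ V W : ℕ → ℝ, V 1 = 8 * GapVol.lob (Real.pi / 6) ∧
    (∀ A, 4 ≤ A → IsGreatest {x : ℝ | ∃ w, bAngleN A 1 w ∧ bvolN A 1 w = x} (V A)) ∧
    W 0 = 0 ∧
    (∀ A, 4 ≤ A → IsGreatest {x : ℝ | ∃ w, Pool.Agent.W709.VC.IsAngle A A w ∧
      Pool.Agent.W709.VC.volw A A w = x} (W A)) ∧
    (∀ (a b : ℕ) (l : List (Bool × ℕ)), (a = 0 ∨ 4 ≤ a) → (b = 0 ∨ 4 ≤ b) →
      (∀ s ∈ l, s.2 = 1 ∨ 4 ≤ s.2) →
        Gr (kn (wd a l b)) ((W a + W b + (l.map fun s => V s.2).sum) / 2)) ∧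
    ∀ A n : ℕ, 4 ≤ A → ∀ ε : ℝ, 0 < ε → ∀ᶠ N : ℕ in atTop,
      Real.exp ((n * W A / (2 * Real.pi) - ε) * N) ≤
        kn (wpow (List.replicate A (1, false) ++ List.replicate A (0, true)) n) N := by
  choose V hV1 hV4 hVg using exV
  choose W hW0 hW4 hWt hWg using exW
  refine ⟨V, W, hV1 1 rfl, hV4, hW0 0 rfl, hW4, ?_, ?_⟩
  · intro a b l ha hb hl
    have h1 := hWg a ha
    have h2 := hWg b hb
    have h3' : ∀ s ∈ l, Gr (fun N : ℕ => bl s.2 N + (N : ℝ) ^ 3) (V s.2) := by
      intro s hs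
      obtain ⟨g1, g2⟩ := hVg s.2 (hl s hs)
      exact Gr.add_cube g2 g1
    have h30 : ∀ (s : Bool × ℕ) (N : ℕ), 0 ≤ bl s.2 N + (N : ℝ) ^ 3 := by
      intro s N
      have g1 : 0 ≤ bl s.2 N := norm_nonneg _
      have g2 : 0 ≤ (N : ℝ) ^ 3 := by positivity
      linarith
    have h3 : Gr (fun N : ℕ => (l.map fun s => bl s.2 N + (N : ℝ) ^ 3).prod)
        (l.map fun s => V s.2).sum :=
      Gr.prod (α := Bool × ℕ) (x := fun (s : Bool × ℕ) (N : ℕ) => bl s.2 N + (N : ℝ) ^ 3)
        (V := fun s : Bool × ℕ => V s.2) h30 l h3'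
    have h4 : ∀ N : ℕ, 0 ≤ (l.map fun s => bl s.2 N + (N : ℝ) ^ 3).prod := by
      intro N
      refine List.prod_nonneg ?_
      intro y hy
      rw [List.mem_map] at hy
      obtain ⟨s, -, rfl⟩ := hy
      exact h30 s N
    have h5 := (h1.mul h3 h4).mul h2 (kn_nonneg _)
    have e : W a + W b + (l.map fun s => V s.2).sum = W a + (l.map fun s => V s.2).sum + W b := by
      ring
    rw [e]
    refine Gr.sqrt h5 ?_
    filter_upwards [eventually_gt_atTop 0] with N hN
    have h6 := chain hN (uA_lt a) (uA_lt b) (ws := l.map syll) (by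
      intro s hs
      rw [List.mem_map] at hs
      obtain ⟨t, -, rfl⟩ := hs
      exact syll_lt t)
    have e1 : dual (uA a) ++ ((l.map syll).flatten ++ uA b) = wd a l b := by
      rw [dual_uA]; rfl
    have e2 : ((l.map syll).map fun s => ‖(rep3 N (s ++ dual s)).trace‖ + (N : ℝ) ^ 3) =
        l.map fun s => bl s.2 N + (N : ℝ) ^ 3 := by
      rw [List.map_map]
      refine List.map_congr_left fun s _ => ?_
      simp only [Function.comp_apply]
      rw [syll_trace]
      rfl
    rw [e1, e2] at h6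
    unfold kn
    rw [dif_pos hN, dif_pos hN, dif_pos hN]
    exact h6
  · intro A n hA ε hε
    have h1 := hWt A hA
    rcases Nat.eq_zero_or_pos n with hn | hn
    · subst hn
      filter_upwards [eventually_gt_atTop 0] with N hN
      unfold kn
      rw [dif_pos hN, wpow_zero', kv_nil, norm_one]
      refine Real.exp_le_one_iff.2 ?_
      rw [Nat.cast_zero, zero_mul, zero_div, zero_sub]
      have : (0 : ℝ) < N := by exact_mod_cast hN
      nlinarith
    · have hnR : (0 : ℝ) < n := by exact_mod_cast hn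
      have hpi := Real.pi_pos
      filter_upwards [h1.eventually (lt_mem_nhds (show W A - 2 * Real.pi * (ε / n) < W A by
        have : 0 < 2 * Real.pi * (ε / n) := by positivity
        linarith)), eventually_gt_atTop 0] with N h2 hN
      have hNR : (0 : ℝ) < N := by exact_mod_cast hN
      have h3 := pow_le hN (uA_lt A) n
      rw [dual_uA] at h3
      obtain ⟨r, hr, h4⟩ := kv_self_pos hN (uA_lt A)
      have h5 : kn (dual (uA A) ++ uA A) N = r := by
        unfold kn
        rw [dif_pos hN, h4, Complex.norm_real, Real.norm_of_nonneg hr.le]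
      rw [h5] at h2
      rw [dual_uA] at h4
      rw [h4, Complex.norm_real, Real.norm_of_nonneg hr.le] at h3
      unfold kn
      rw [dif_pos hN]
      refine le_trans ?_ h3
      rw [← Real.exp_log hr, ← Real.exp_nat_mul]
      refine Real.exp_le_exp.2 ?_
      have h6 : (W A / (2 * Real.pi) - ε / n) * N ≤ Real.log r := by
        have h7 : (W A - 2 * Real.pi * (ε / n)) / (2 * Real.pi) < Real.log r / N := by
          rw [div_lt_iff₀ (by positivity)]
          linarith
        rw [lt_div_iff₀ hNR] at h7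
        refine le_trans (le_of_eq ?_) h7.le
        field_simp
      calc (n * W A / (2 * Real.pi) - ε) * N = n * ((W A / (2 * Real.pi) - ε / n) * N) := by
            field_simp
        _ ≤ n * Real.log r := mul_le_mul_of_nonneg_left h6 hnR.le

end Pool.Agent.V1150.RP
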