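import Pool.Agent.V1150.RP.E
import Pool.Agent.V1150.RP.F
import Pool.Agent.TH561.KC.Prod
import Pool.Agent.W715.VC.Base2
import Pool.Agent.H112R4.VL.D
import Pool.Agent.H112R4.VL.B
import Pool.Agent.H8R3.VL.TaskC

/-!
Reflection positivity for two-bridge (1,1)-tangles: explicit bounds for the growth, with the
exponents 2 and 3.
-/

set_option autoImplicit false

namespace Pool.Agent.V1150.RP

open Matrix Finset Filter Topology Pool.Agent.H550R3.Jones Pool.Agent.W715.VC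
open Pool.Agent.W719.BX (uA bAngleN bvolN)
open scoped Kronecker

variable {N : ℕ}

lemma kn_jt {A N : ℕ} (hN : 0 < N) :
    kn (dual (uA A) ++ uA A) N = ‖Pool.Agent.W709.RT.jt A N (EvenVol.v0 N)‖ := by
  unfold kn
  rw [dif_pos hN, dual_uA]
  unfold Pool.Agent.W709.RT.jt
  rw [dif_pos hN]
  rfl

/-- the figure-eight knot -/
theorem end2 : Tendsto (fun N : ℕ => 2 * Real.pi *
    (Real.log (kn (dual (uA 2) ++ uA 2) N) / N)) atTop (𝓝 (4 * GapVol.lob (Real.pi / 6))) := by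
  have h1 := Pool.Agent.TH561.KC.fig8_rate.const_mul (2 * Real.pi)
  have h2 : 2 * Real.pi * Pool.Agent.H180R3.EV.V4 = 4 * GapVol.lob (Real.pi / 6) := by
    unfold Pool.Agent.H180R3.EV.V4
    have := Real.pi_ne_zero
    field_simp
    try ring
  rw [h2] at h1
  refine h1.congr' ?_
  filter_upwards [eventually_ge_atTop 2] with N hN
  rw [kn_jt (by omega), Pool.Agent.W709.RT.jt_v0 hN (A := 2) (κ := EvenVol.fig8 (EvenVol.v0 N) N)
    (by exact_mod_cast jd2 hN)]
  ring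

/-- the link `C(3, 3)` -/
theorem end3 : Tendsto (fun N : ℕ => 2 * Real.pi *
    (Real.log (kn (dual (uA 3) ++ uA 3) N) / N)) atTop (𝓝 (8 * GapVol.lob (Real.pi / 6))) := by
  have h1 := Pool.Agent.H112R4.VL.taskD Pool.Agent.H112R4.VL.taskB Pool.Agent.H8R3.VL.taskC
  refine h1.congr' ?_
  filter_upwards [eventually_ge_atTop 2] with N hN
  rw [kn_jt (by omega), Pool.Agent.W709.RT.jt_v0 hN (A := 3)
    (κ := ((Pool.Agent.H112R4.VL.K N : ℝ) : ℂ))
    (by exact_mod_cast Pool.Agent.H112R4.VL.taskA N hN), Complex.norm_real, Real.norm_eq_abs,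
    Real.log_abs]
  ring

/-- the block of two crossings -/
theorem blk2 : Tendsto (fun N : ℕ => 2 * Real.pi * (Real.log (bl 2 N) / N)) atTop
    (𝓝 (16 * GapVol.lob (Real.pi / 4))) := by
  refine tr2_growth.congr' ?_
  filter_upwards [eventually_gt_atTop 0] with N hN
  have e : uA 2 ++ dual (uA 2) = [(0, true), (0, true)] ++ dual [(0, true), (0, true)] := rfl
  unfold bl
  rw [e, trace_two hN, Complex.norm_real, Real.norm_eq_abs, abs_of_nonneg]
  · unfold tr2
    ring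
  · exact Finset.sum_nonneg (fun n _ => by positivity)

lemma exV2 (n : ℕ) : ∃ V : ℝ, (n = 1 → V = 8 * GapVol.lob (Real.pi / 6)) ∧
    (n = 2 → V = 16 * GapVol.lob (Real.pi / 4)) ∧
    (4 ≤ n → IsGreatest {x : ℝ | ∃ w, bAngleN n 1 w ∧ bvolN n 1 w = x} V) ∧
    (n = 1 ∨ n = 2 ∨ 4 ≤ n → 0 ≤ V ∧ Gr (bl n) V) := by
  by_cases h : n = 2
  · subst h
    refine ⟨_, fun h => by omega, fun _ => rfl, fun h => by omega, fun _ => ⟨?_, ?_⟩⟩
    · have h1 : 0 < GapVol.lob (Real.pi / 4) := EvenVol.LobIneq.lob_four_pos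
      linarith
    · exact Gr.of_tendsto (fun N => norm_nonneg _) blk2
  · obtain ⟨V, h1, h2, h3⟩ := exV n
    exact ⟨V, h1, fun h4 => absurd h4 h, h2, fun h4 => h3 (by omega)⟩

lemma exW2 (n : ℕ) : ∃ W : ℝ, (n = 0 → W = 0) ∧ (n = 2 → W = 4 * GapVol.lob (Real.pi / 6)) ∧
    (n = 3 → W = 8 * GapVol.lob (Real.pi / 6)) ∧
    (4 ≤ n → IsGreatest {x : ℝ | ∃ w, Pool.Agent.W709.VC.IsAngle n n w ∧
      Pool.Agent.W709.VC.volw n n w = x} W) ∧
    (2 ≤ n → Tendsto (fun N : ℕ => 2 * Real.pi * (Real.log (kn (dual (uA n) ++ uA n) N) / N))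
      atTop (𝓝 W)) ∧
    (n = 0 ∨ 2 ≤ n → Gr (kn (dual (uA n) ++ uA n)) W) := by
  by_cases h : n = 2
  · subst h
    exact ⟨_, fun h => by omega, fun _ => rfl, fun h => by omega, fun h => by omega,
      fun _ => end2, fun _ => Gr.of_tendsto (kn_nonneg _) end2⟩
  by_cases h' : n = 3
  · subst h'
    exact ⟨_, fun h => by omega, fun h => by omega, fun _ => rfl, fun h => by omega,
      fun _ => end3, fun _ => Gr.of_tendsto (kn_nonneg _) end3⟩
  obtain ⟨W, h1, h2, h3, h4⟩ := exW n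
  exact ⟨W, h1, fun h5 => absurd h5 h, fun h5 => absurd h5 h', h2, fun h5 => h3 (by omega),
    fun h5 => h4 (by omega)⟩

/-- the upper bound, for given bounds of the pieces -/
theorem upper_gen {V W : ℕ → ℝ} {a b : ℕ} {l : List (Bool × ℕ)}
    (h1 : Gr (kn (dual (uA a) ++ uA a)) (W a)) (h2 : Gr (kn (dual (uA b) ++ uA b)) (W b))
    (hV : ∀ s ∈ l, 0 ≤ V s.2 ∧ Gr (bl s.2) (V s.2)) :
    Gr (kn (wd a l b)) ((W a + W b + (l.map fun s => V s.2).sum) / 2) := by
  have h3' : ∀ s ∈ l, Gr (fun N : ℕ => bl s.2 N + (N : ℝ) ^ 3) (V s.2) := by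
    intro s hs
    obtain ⟨g1, g2⟩ := hV s hs
    exact Gr.add_cube g2 g1
  have h30 : ∀ (s : Bool × ℕ) (N : ℕ), 0 ≤ bl s.2 N + (N : ℝ) ^ 3 := by
    intro s N
    have g1 : 0 ≤ bl s.2 N := norm_nonneg _
    have g2 : 0 ≤ (N : ℝ) ^ 3 := by positivity
    linarith
  have h3 : Gr (fun N : ℕ => (l.map fun s => bl s.2 N + (N : ℝ) ^ 3).prod)
      (l.map fun s => V s.2).sum :=
    Gr.prod (α := Bool × ℕ) (x := fun (s : Bool × ℕ) (N : ℕ) => bl s.2 N + (N : ℝ) ^ 3)
      (V := fun s : Bool × ℕ => V s.2) h30 l h3'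
  have h4 : ∀ N : ℕ, 0 ≤ (l.map fun s => bl s.2 N + (N : ℝ) ^ 3).prod := by
    intro N
    refine List.prod_nonneg ?_
    intro y hy
    rw [List.mem_map] at hy
    obtain ⟨s, -, rfl⟩ := hy
    exact h30 s N
  have h5 := (h1.mul h3 h4).mul h2 (kn_nonneg _)
  have e : W a + W b + (l.map fun s => V s.2).sum = W a + (l.map fun s => V s.2).sum + W b := by
    ring
  rw [e]
  refine Gr.sqrt h5 ?_
  filter_upwards [eventually_gt_atTop 0] with N hN
  have h6 := chain hN (uA_lt a) (uA_lt b) (ws := l.map syll) (by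
    intro s hs
    rw [List.mem_map] at hs
    obtain ⟨t, -, rfl⟩ := hs
    exact syll_lt t)
  have e1 : dual (uA a) ++ ((l.map syll).flatten ++ uA b) = wd a l b := by
    rw [dual_uA]; rfl
  have e2 : ((l.map syll).map fun s => ‖(rep3 N (s ++ dual s)).trace‖ + (N : ℝ) ^ 3) =
      l.map fun s => bl s.2 N + (N : ℝ) ^ 3 := by
    rw [List.map_map]
    refine List.map_congr_left fun s _ => ?_
    simp only [Function.comp_apply]
    rw [syll_trace]
    rfl
  rw [e1, e2] at h6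
  unfold kn
  rw [dif_pos hN, dif_pos hN, dif_pos hN]
  exact h6

/-- the lower bound for powers -/
theorem lower_gen {W : ℝ} {A : ℕ} (h1 : Tendsto (fun N : ℕ => 2 * Real.pi *
      (Real.log (kn (dual (uA A) ++ uA A) N) / N)) atTop (𝓝 W)) (n : ℕ) {ε : ℝ} (hε : 0 < ε) :
    ∀ᶠ N : ℕ in atTop, Real.exp ((n * W / (2 * Real.pi) - ε) * N) ≤
      kn (wpow (List.replicate A (1, false) ++ List.replicate A (0, true)) n) N := by
  rcases Nat.eq_zero_or_pos n with hn | hn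
  · subst hn
    filter_upwards [eventually_gt_atTop 0] with N hN
    unfold kn
    rw [dif_pos hN, wpow_zero', kv_nil, norm_one]
    refine Real.exp_le_one_iff.2 ?_
    rw [Nat.cast_zero, zero_mul, zero_div, zero_sub]
    have : (0 : ℝ) < N := by exact_mod_cast hN
    nlinarith
  · have hnR : (0 : ℝ) < n := by exact_mod_cast hn
    have hpi := Real.pi_pos
    filter_upwards [h1.eventually (lt_mem_nhds (show W - 2 * Real.pi * (ε / n) < W by
      have : 0 < 2 * Real.pi * (ε / n) := by positivity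
      linarith)), eventually_gt_atTop 0] with N h2 hN
    have hNR : (0 : ℝ) < N := by exact_mod_cast hN
    have h3 := pow_le hN (uA_lt A) n
    rw [dual_uA] at h3
    obtain ⟨r, hr, h4⟩ := kv_self_pos hN (uA_lt A)
    have h5 : kn (dual (uA A) ++ uA A) N = r := by
      unfold kn
      rw [dif_pos hN, h4, Complex.norm_real, Real.norm_of_nonneg hr.le]
    rw [h5] at h2
    rw [dual_uA] at h4
    rw [h4, Complex.norm_real, Real.norm_of_nonneg hr.le] at h3
    unfold kn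
    rw [dif_pos hN]
    refine le_trans ?_ h3
    rw [← Real.exp_log hr, ← Real.exp_nat_mul]
    refine Real.exp_le_exp.2 ?_
    have h6 : (W / (2 * Real.pi) - ε / n) * N ≤ Real.log r := by
      have h7 : (W - 2 * Real.pi * (ε / n)) / (2 * Real.pi) < Real.log r / N := by
        rw [div_lt_iff₀ (by positivity)]
        linarith
      rw [lt_div_iff₀ hNR] at h7
      refine le_trans (le_of_eq ?_) h7.le
      field_simp
    calc (n * W / (2 * Real.pi) - ε) * N = n * ((W / (2 * Real.pi) - ε / n) * N) := by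
          field_simp
      _ ≤ n * Real.log r := mul_le_mul_of_nonneg_left h6 hnR.le

/-- **the explicit bounds** -/
theorem explicit2 : ∃ V W : ℕ → ℝ, V 1 = 8 * GapVol.lob (Real.pi / 6) ∧
    V 2 = 16 * GapVol.lob (Real.pi / 4) ∧
    (∀ A, 4 ≤ A → IsGreatest {x : ℝ | ∃ w, bAngleN A 1 w ∧ bvolN A 1 w = x} (V A)) ∧
    W 0 = 0 ∧ W 2 = 4 * GapVol.lob (Real.pi / 6) ∧ W 3 = 8 * GapVol.lob (Real.pi / 6) ∧
    (∀ A, 4 ≤ A → IsGreatest {x : ℝ | ∃ w, Pool.Agent.W709.VC.IsAngle A A w ∧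
      Pool.Agent.W709.VC.volw A A w = x} (W A)) ∧
    (∀ (a b : ℕ) (l : List (Bool × ℕ)), a ≠ 1 → b ≠ 1 →
      (∀ s ∈ l, s.2 = 1 ∨ s.2 = 2 ∨ 4 ≤ s.2) →
        Gr (kn (wd a l b)) ((W a + W b + (l.map fun s => V s.2).sum) / 2)) ∧
    ∀ A n : ℕ, 2 ≤ A → ∀ ε : ℝ, 0 < ε → ∀ᶠ N : ℕ in atTop,
      Real.exp ((n * W A / (2 * Real.pi) - ε) * N) ≤
        kn (wpow (List.replicate A (1, false) ++ List.replicate A (0, true)) n) N := by
  choose V hV1 hV2 hV4 hVg using exV2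
  choose W hW0 hW2 hW3 hW4 hWt hWg using exW2
  refine ⟨V, W, hV1 1 rfl, hV2 2 rfl, hV4, hW0 0 rfl, hW2 2 rfl, hW3 3 rfl, hW4, ?_, ?_⟩
  · intro a b l ha hb hl
    exact upper_gen (hWg a (by omega)) (hWg b (by omega)) fun s hs => hVg s.2 (hl s hs)
  · intro A n hA ε hε
    exact lower_gen (hWt A hA) n hε

end Pool.Agent.V1150.RP
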